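import Pool.Agent.OFK70.Main

/-!
# OFK70: the junta theorem in the notation of `Pool.Agent.OFK.Defs`
-/

namespace Pool.Agent.OFK70

open Finset
open scoped FinsetFamily

/-- the number of pairs (a set of the shadow, a point which leads out of the family) -/
theorem pairs_eq {n : ℕ} (U : Finset (Finset (Fin n))) (r : ℕ) (hr : r < n)
    (hU : U ⊆ powersetCard (r + 1) (univ : Finset (Fin n))) :
    (pairs U : ℝ) = ((r : ℝ) + 1) * Pool.Agent.OFK.oU U r * n.choose (r + 1) := by
  have hUc : ∀ A ∈ U, A.card = r + 1 := fun A hA => mem_powersetCard_univ.1 (hU hA)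
  have hsh : ∀ T ∈ ∂ U, T.card = r := by
    intro T hT
    rw [mem_shadow_iff_insert_mem] at hT
    obtain ⟨a, ha, hT⟩ := hT
    have := hUc _ hT
    rw [card_insert_of_notMem ha] at this
    omega
  have h1 : (∑ T ∈ ∂ U, (univ.filter fun z => z ∉ T ∧ insert z T ∈ U).card) = (r + 1) * U.card := by
    have h2 : ∑ A ∈ U, A.card = (r + 1) * U.card := by
      rw [sum_congr rfl hUc, sum_const, smul_eq_mul, mul_comm]
    rw [← h2]
    have h3 : (∑ T ∈ ∂ U, (univ.filter fun z => z ∉ T ∧ insert z T ∈ U).card) =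
        ((∂ U).sigma fun T => univ.filter fun z => z ∉ T ∧ insert z T ∈ U).card := by
      rw [card_sigma]
    have h4 : ∑ A ∈ U, A.card = (U.sigma fun A => A).card := by rw [card_sigma]
    rw [h3, h4]
    refine card_nbij' (fun p => ⟨insert p.2 p.1, p.2⟩) (fun p => ⟨p.1.erase p.2, p.2⟩) ?_ ?_ ?_ ?_
    · rintro ⟨T, z⟩ h
      have h' := mem_sigma.1 (mem_coe.1 h)
      have h5 := (mem_filter.1 h'.2).2
      exact mem_coe.2 (mem_sigma.2 ⟨h5.2, mem_insert_self z T⟩)
    · rintro ⟨A, z⟩ h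
      have h' := mem_sigma.1 (mem_coe.1 h)
      have h5 : z ∈ A := h'.2
      refine mem_coe.2 (mem_sigma.2 ⟨?_, mem_filter.2 ⟨mem_univ _, notMem_erase z A, ?_⟩⟩)
      · exact mem_shadow_iff_insert_mem.2 ⟨z, notMem_erase z A, by
          dsimp only
          rw [insert_erase h5]
          exact h'.1⟩
      · dsimp only
        rw [insert_erase h5]
        exact h'.1
    · rintro ⟨T, z⟩ h
      have h' := mem_sigma.1 (mem_coe.1 h)
      have h5 := (mem_filter.1 h'.2).2
      dsimp only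
      rw [erase_insert h5.1]
    · rintro ⟨A, z⟩ h
      have h' := mem_sigma.1 (mem_coe.1 h)
      have h5 : z ∈ A := h'.2
      dsimp only
      rw [insert_erase h5]
  have h2 : pairs U + (r + 1) * U.card = (n - r) * (∂ U).card := by
    rw [← h1]
    unfold pairs
    rw [← sum_add_distrib]
    have h3 : ∀ T ∈ ∂ U, (univ.filter fun z => z ∉ T ∧ insert z T ∉ U).card +
        (univ.filter fun z => z ∉ T ∧ insert z T ∈ U).card = n - r := by
      intro T hT
      rw [← card_union_of_disjoint]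
      · have h4 : (univ.filter fun z => z ∉ T ∧ insert z T ∉ U) ∪
            (univ.filter fun z => z ∉ T ∧ insert z T ∈ U) = Tᶜ := by
          ext z
          simp only [mem_union, mem_filter, mem_univ, true_and, mem_compl]
          tauto
        rw [h4, card_compl, Fintype.card_fin, hsh T hT]
      · rw [disjoint_left]
        intro z hz hz'
        exact (mem_filter.1 hz).2.2 (mem_filter.1 hz').2.2
    rw [sum_congr rfl h3, sum_const, smul_eq_mul, mul_comm]
  have h3 : (pairs U : ℝ) + ((r : ℝ) + 1) * U.card = ((n - r : ℕ) : ℝ) * (∂ U).card := by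
    exact_mod_cast h2
  have h4 : (n.choose (r + 1) : ℝ) * ((r : ℝ) + 1) = n.choose r * ((n - r : ℕ) : ℝ) := by
    exact_mod_cast Nat.choose_succ_right_eq n r
  have h5 : (0 : ℝ) < n.choose r := by exact_mod_cast Nat.choose_pos hr.le
  have h6 : (0 : ℝ) < n.choose (r + 1) := by exact_mod_cast Nat.choose_pos hr
  unfold Pool.Agent.OFK.oU
  have h7 : ((r : ℝ) + 1) * (((∂ U).card : ℝ) / n.choose r - (U.card : ℝ) / n.choose (r + 1)) *
      n.choose (r + 1) = (n.choose (r + 1) * ((r : ℝ) + 1)) * ((∂ U).card / n.choose r) -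
        ((r : ℝ) + 1) * U.card := by
    field_simp
  rw [h7, h4]
  have h8 : (n.choose r : ℝ) * ((n - r : ℕ) : ℝ) * ((∂ U).card / n.choose r) =
      ((n - r : ℕ) : ℝ) * (∂ U).card := by
    field_simp
  rw [h8]
  linarith

/-- the junta theorem on the level `r + 1` of `2 r + 1 + k` points -/
theorem junta (k : ℕ) (C ε₀ : ℝ) (hε : 0 < ε₀) : ∃ j₀ N : ℕ, ∀ r n : ℕ, N ≤ r →
    n = 2 * r + 1 + k →
    ∀ U : Finset (Finset (Fin n)), U ⊆ powersetCard (r + 1) (univ : Finset (Fin n)) →
    ((r : ℝ) + 1) * Pool.Agent.OFK.oU U r ≤ C →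
    ∃ J : Finset (Fin n), J.card ≤ j₀ ∧
      ∑ u ∈ J.powerset, Pool.Agent.OFK.pd U (r + 1) J u *
        (1 - Pool.Agent.OFK.pd U (r + 1) J u) ≤ ε₀ * 2 ^ J.card := by
  obtain ⟨j₀, N, h⟩ := slice_junta (k + 1) C ε₀ hε
  refine ⟨j₀, N, fun r n hr hn U hU hC => ?_⟩
  exact h n (r + 1) U (by omega) (by omega) (by omega)
    (fun A hA => mem_powersetCard_univ.1 (hU hA)) (by
      rw [pairs_eq U r (by omega) hU]
      exact mul_le_mul_of_nonneg_right hC (by positivity))

end Pool.Agent.OFK70
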