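import Mathlib

/-!
# OFK70: the first absolute moment of the size of a random set
-/

namespace Pool.Agent.OFK70

open Finset

theorem second_moment {α : Type*} [DecidableEq α] (s : Finset α) :
    ∑ x ∈ s.powerset, (2 * (x.card : ℝ) - s.card) ^ 2 = (s.card : ℝ) * 2 ^ s.card := by
  induction s using Finset.induction_on with
  | empty => simp
  | insert a s ha ih =>
    rw [sum_powerset_insert ha, card_insert_of_notMem ha]
    have h1 : ∀ x ∈ s.powerset, (2 * ((insert a x).card : ℝ) - ((s.card + 1 : ℕ) : ℝ)) ^ 2 =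
        (2 * (x.card : ℝ) - s.card + 1) ^ 2 := by
      intro x hx
      have hax : a ∉ x := fun h => ha (mem_powerset.1 hx h)
      rw [card_insert_of_notMem hax]
      push_cast
      ring
    rw [sum_congr rfl h1, ← sum_add_distrib]
    have h2 : ∀ x ∈ s.powerset, (2 * (x.card : ℝ) - ((s.card + 1 : ℕ) : ℝ)) ^ 2 +
        (2 * (x.card : ℝ) - s.card + 1) ^ 2 = 2 * (2 * (x.card : ℝ) - s.card) ^ 2 + 2 := by
      intro x _
      push_cast
      ring
    rw [sum_congr rfl h2, sum_add_distrib, ← mul_sum, ih, sum_const, card_powerset, nsmul_eq_mul]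
    push_cast
    ring

/-- the first absolute moment around `m` -/
theorem abs_moment {n m c : ℕ} (hn : 1 ≤ n) (h1 : 2 * m ≤ n + c) (h2 : n ≤ 2 * m + c) :
    ∑ x : Finset (Fin n), |(x.card : ℝ) - m| ≤ (1 + (c : ℝ) ^ 2) * √n * 2 ^ n := by
  have hs : (0 : ℝ) < √n := Real.sqrt_pos.2 (by exact_mod_cast hn)
  have hs1 : (1 : ℝ) ≤ √n := Real.one_le_sqrt.2 (by exact_mod_cast hn)
  have hsq : √(n : ℝ) * √n = n := Real.mul_self_sqrt (by positivity)
  have h3 := second_moment (univ : Finset (Fin n))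
  rw [powerset_univ, card_univ, Fintype.card_fin] at h3
  have h4 : -(c : ℝ) ≤ (n : ℝ) - 2 * m := by
    have : ((2 * m : ℕ) : ℝ) ≤ ((n + c : ℕ) : ℝ) := by exact_mod_cast h1
    push_cast at this
    linarith
  have h5 : (n : ℝ) - 2 * m ≤ c := by
    have : (n : ℝ) ≤ ((2 * m + c : ℕ) : ℝ) := by exact_mod_cast h2
    push_cast at this
    linarith
  have h6 : ∀ x : Finset (Fin n), |(x.card : ℝ) - m| ≤
      ((2 * (x.card : ℝ) - n) ^ 2 + (c : ℝ) ^ 2) / (4 * √n) + √n / 2 := by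
    intro x
    have h7 : (2 * |(x.card : ℝ) - m|) ^ 2 ≤ 2 * ((2 * (x.card : ℝ) - n) ^ 2 + (c : ℝ) ^ 2) := by
      rw [mul_pow, sq_abs]
      have h71 : ((n : ℝ) - 2 * m) ^ 2 ≤ (c : ℝ) ^ 2 := sq_le_sq' h4 h5
      nlinarith [sq_nonneg ((2 * (x.card : ℝ) - n) - ((n : ℝ) - 2 * m))]
    have h8 : 2 * (2 * |(x.card : ℝ) - m|) * (2 * √n) ≤
        (2 * |(x.card : ℝ) - m|) ^ 2 + (2 * √n) ^ 2 := by
      nlinarith [sq_nonneg (2 * |(x.card : ℝ) - m| - 2 * √n)]
    have h9 : |(x.card : ℝ) - m| * (8 * √n) ≤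
        2 * ((2 * (x.card : ℝ) - n) ^ 2 + (c : ℝ) ^ 2) + 4 * n := by
      nlinarith
    have h10 : ((2 * (x.card : ℝ) - n) ^ 2 + (c : ℝ) ^ 2) / (4 * √n) + √n / 2 =
        (2 * ((2 * (x.card : ℝ) - n) ^ 2 + (c : ℝ) ^ 2) + 4 * n) / (8 * √n) := by
      rw [show 4 * (n : ℝ) = 4 * (√n * √n) by rw [hsq]]
      field_simp
      ring
    rw [h10, le_div_iff₀ (by positivity)]
    exact h9
  calc ∑ x : Finset (Fin n), |(x.card : ℝ) - m|
      ≤ ∑ x : Finset (Fin n), (((2 * (x.card : ℝ) - n) ^ 2 + (c : ℝ) ^ 2) / (4 * √n) + √n / 2) :=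
        sum_le_sum fun x _ => h6 x
    _ = ((n : ℝ) * 2 ^ n + (c : ℝ) ^ 2 * 2 ^ n) / (4 * √n) + √n / 2 * 2 ^ n := by
        rw [sum_add_distrib, ← sum_div, sum_add_distrib, h3, sum_const, sum_const, card_univ,
          Fintype.card_finset, Fintype.card_fin, nsmul_eq_mul, nsmul_eq_mul]
        push_cast
        ring
    _ ≤ (1 + (c : ℝ) ^ 2) * √n * 2 ^ n := by
        have h11 : ((n : ℝ) * 2 ^ n + (c : ℝ) ^ 2 * 2 ^ n) / (4 * √n) ≤
            (1 + (c : ℝ) ^ 2) * √n / 4 * 2 ^ n := by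
          rw [div_le_iff₀ (by positivity)]
          have h12 : (1 + (c : ℝ) ^ 2) * √n / 4 * 2 ^ n * (4 * √n) =
              (1 + (c : ℝ) ^ 2) * (√n * √n) * 2 ^ n := by ring
          rw [h12, hsq]
          have h13 : (1 : ℝ) ≤ n := by exact_mod_cast hn
          have h14 : (c : ℝ) ^ 2 ≤ (c : ℝ) ^ 2 * n := le_mul_of_one_le_right (sq_nonneg _) h13
          have h15 : (0 : ℝ) < 2 ^ n := by positivity
          nlinarith
        have h16 : (0 : ℝ) ≤ (c : ℝ) ^ 2 * (√n * 2 ^ n) := by positivity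
        have h17 : (0 : ℝ) ≤ √n * 2 ^ n := by positivity
        nlinarith

end Pool.Agent.OFK70
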