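import Pool.Agent.OFK70.Lift
import Pool.Agent.OFK70.Moment
import Pool.Agent.OFK.Cube

/-!
# OFK70: the junta theorem on a middle level

`slice_junta`: a family `U` of `m`-sets of an `n`-set, `|n - 2 m| ≤ c`, such that at most
`C * C(n, m)` pairs (a set `T` of the shadow, a point `z` outside) satisfy `T + z ∉ U`, has almost
only densities near `0` and `1` on the fibres of a set `J` of boundedly many coordinates.
-/

namespace Pool.Agent.OFK70

open Finset
open scoped FinsetFamily

variable {n : ℕ}

/-- the share of `U` among the `m`-sets with trace `u` on `J` -/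
noncomputable def pr (U : Finset (Finset (Fin n))) (m : ℕ) (J u : Finset (Fin n)) : ℝ :=
  ((U.filter fun A => A ∩ J = u).card : ℝ) / ((n - J.card).choose (m - u.card) : ℝ)

theorem sum_levels (φ : Finset (Fin n) → ℝ) :
    ∑ x, φ x = ∑ l ∈ range (n + 1), ∑ x ∈ powersetCard l (univ : Finset (Fin n)), φ x := by
  have h := sum_powerset (univ : Finset (Fin n)) φ
  rw [powerset_univ, card_univ, Fintype.card_fin] at h
  exact h

theorem card_trace (m : ℕ) (J u : Finset (Fin n)) (hu : u ⊆ J) (hum : u.card ≤ m) :
    ((powersetCard m (univ : Finset (Fin n))).filter fun A => A ∩ J = u).card =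
      (n - J.card).choose (m - u.card) := by
  have h1 : (n - J.card).choose (m - u.card) = (powersetCard (m - u.card) Jᶜ).card := by
    rw [card_powersetCard, card_compl, Fintype.card_fin]
  rw [h1]
  refine card_nbij' (fun A => A \ J) (fun B => B ∪ u) ?_ ?_ ?_ ?_
  · intro A hA
    have hA' := mem_filter.1 (mem_coe.1 hA)
    refine mem_coe.2 (mem_powersetCard.2 ⟨?_, ?_⟩)
    · intro z hz
      exact mem_compl.2 (mem_sdiff.1 hz).2
    · have h2 := card_sdiff_add_card_inter A J
      rw [hA'.2, (mem_powersetCard.1 hA'.1).2] at h2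
      dsimp only
      omega
  · intro B hB
    have hB' := mem_powersetCard.1 (mem_coe.1 hB)
    have hd : Disjoint B u := by
      rw [disjoint_left]
      intro z hz hzu
      exact (mem_compl.1 (hB'.1 hz)) (hu hzu)
    refine mem_coe.2 (mem_filter.2 ⟨?_, ?_⟩)
    · rw [mem_powersetCard_univ, card_union_of_disjoint hd, hB'.2]
      omega
    · ext z
      have h3 := @hu z
      have h4 := @hB'.1 z
      rw [mem_compl] at h4
      rw [mem_inter, mem_union]
      tauto
  · intro A hA
    have hA' := mem_filter.1 (mem_coe.1 hA)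
    have h2 := hA'.2
    ext z
    have h3 := Finset.ext_iff.1 h2 z
    rw [mem_inter] at h3
    simp only [mem_union, mem_sdiff]
    tauto
  · intro B hB
    have hB' := mem_powersetCard.1 (mem_coe.1 hB)
    ext z
    have h3 := @hu z
    have h4 := @hB'.1 z
    rw [mem_compl] at h4
    simp only [mem_union, mem_sdiff]
    tauto

theorem card_trace_cube (J u : Finset (Fin n)) (hu : u ⊆ J) :
    ((univ : Finset (Finset (Fin n))).filter fun A => A ∩ J = u).card = 2 ^ (n - J.card) := by
  have h1 : 2 ^ (n - J.card) = (powerset Jᶜ).card := by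
    rw [card_powerset, card_compl, Fintype.card_fin]
  rw [h1]
  refine card_nbij' (fun A => A \ J) (fun B => B ∪ u) ?_ ?_ ?_ ?_
  · intro A _
    refine mem_coe.2 (mem_powerset.2 ?_)
    intro z hz
    exact mem_compl.2 (mem_sdiff.1 hz).2
  · intro B hB
    have hB' := mem_powerset.1 (mem_coe.1 hB)
    refine mem_coe.2 (mem_filter.2 ⟨mem_univ _, ?_⟩)
    ext z
    have h3 := @hu z
    have h4 := @hB' z
    rw [mem_compl] at h4
    rw [mem_inter, mem_union]
    tauto
  · intro A hA
    have hA' := mem_filter.1 (mem_coe.1 hA)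
    have h2 := hA'.2
    ext z
    have h3 := Finset.ext_iff.1 h2 z
    rw [mem_inter] at h3
    simp only [mem_union, mem_sdiff]
    tauto
  · intro B hB
    have hB' := mem_powerset.1 (mem_coe.1 hB)
    ext z
    have h3 := @hu z
    have h4 := @hB' z
    rw [mem_compl] at h4
    simp only [mem_union, mem_sdiff]
    tauto

variable {U : Finset (Finset (Fin n))} {m : ℕ} {C : ℝ}

theorem Hyp.total_edge (h : Hyp U m C) :
    ∑ i, (∑ x, |lift U m (insert i x) - lift U m (x.erase i)|) / 2 ^ n ≤ 8 * C * n / m := by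
  have hS := h.S_nonneg
  have h1 : ∀ i : Fin n, ∑ x, |lift U m (insert i x) - lift U m (x.erase i)| =
      2 * ∑ x with i ∈ x, |lift U m x - lift U m (x.erase i)| := by
    intro i
    rw [← sum_filter_add_sum_filter_not univ (fun x : Finset (Fin n) => i ∈ x)]
    have h2 : ∑ x with i ∈ x, |lift U m (insert i x) - lift U m (x.erase i)| =
        ∑ x with i ∈ x, |lift U m x - lift U m (x.erase i)| := by
      refine sum_congr rfl fun x hx => ?_
      rw [insert_eq_of_mem (mem_filter.1 hx).2]
    have h3 : ∑ x with i ∉ x, |lift U m (insert i x) - lift U m (x.erase i)| =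
        ∑ x with i ∈ x, |lift U m x - lift U m (x.erase i)| := by
      refine sum_nbij' (fun x => insert i x) (fun x => x.erase i) ?_ ?_ ?_ ?_ ?_
      · intro x _
        exact mem_filter.2 ⟨mem_univ _, mem_insert_self i x⟩
      · intro x _
        exact mem_filter.2 ⟨mem_univ _, notMem_erase i x⟩
      · intro x hx
        exact erase_insert (mem_filter.1 hx).2
      · intro x hx
        exact insert_erase (mem_filter.1 hx).2
      · intro x hx
        have hi := (mem_filter.1 hx).2
        rw [erase_insert hi, erase_eq_of_notMem hi]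
    rw [h2, h3]
    ring
  have h2 : ∑ i : Fin n, ∑ x with i ∈ x, |lift U m x - lift U m (x.erase i)| =
      ∑ x, ∑ i ∈ x, |lift U m x - lift U m (x.erase i)| := by
    have h3 : ∀ i : Fin n, ∑ x with i ∈ x, |lift U m x - lift U m (x.erase i)| =
        ∑ x, if i ∈ x then |lift U m x - lift U m (x.erase i)| else 0 := by
      intro i
      rw [sum_filter]
    rw [sum_congr rfl fun i _ => h3 i, sum_comm]
    refine sum_congr rfl fun x _ => ?_
    rw [← sum_filter]
    refine sum_congr ?_ fun _ _ => rfl
    ext i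
    simp
  have h3 : ∑ x, ∑ i ∈ x, |lift U m x - lift U m (x.erase i)| ≤
      2 * C / m * n * 2 ^ (n + 1) := by
    rw [sum_levels]
    calc ∑ l ∈ range (n + 1), ∑ x ∈ powersetCard l (univ : Finset (Fin n)),
          ∑ i ∈ x, |lift U m x - lift U m (x.erase i)|
        ≤ ∑ l ∈ range (n + 1), 2 * C / m * n * (n + 1).choose l :=
          sum_le_sum fun l hl => h.edge l (by rw [mem_range] at hl; omega)
      _ ≤ ∑ l ∈ range (n + 1 + 1), 2 * C / m * n * (n + 1).choose l :=
          sum_le_sum_of_subset_of_nonneg (range_mono (Nat.le_succ _))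
            fun _ _ _ => by positivity
      _ = 2 * C / m * n * 2 ^ (n + 1) := by
          rw [← mul_sum]
          have h4 := Nat.sum_range_choose (n + 1)
          have h5 : ∑ l ∈ range (n + 1 + 1), ((n + 1).choose l : ℝ) = 2 ^ (n + 1) := by
            exact_mod_cast h4
          rw [h5]
  rw [← sum_div, sum_congr rfl fun i _ => h1 i, ← mul_sum, h2, div_le_iff₀ (by positivity)]
  calc 2 * ∑ x, ∑ i ∈ x, |lift U m x - lift U m (x.erase i)|
      ≤ 2 * (2 * C / m * n * 2 ^ (n + 1)) := mul_le_mul_of_nonneg_left h3 (by norm_num)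
    _ = 8 * C * n / m * 2 ^ n := by rw [pow_succ]; ring

theorem abs_levels (m : ℕ) :
    ∑ l ∈ range (n + 1), |(l : ℝ) - m| * n.choose l = ∑ x : Finset (Fin n), |(x.card : ℝ) - m| := by
  rw [sum_levels]
  refine sum_congr rfl fun l _ => ?_
  have h1 : ∀ x ∈ powersetCard l (univ : Finset (Fin n)), |(x.card : ℝ) - m| = |(l : ℝ) - m| := by
    intro x hx
    rw [(mem_powersetCard.1 hx).2]
  rw [sum_congr rfl h1, sum_const, card_powersetCard, card_univ, Fintype.card_fin, nsmul_eq_mul,
    mul_comm]

theorem Hyp.total_var (h : Hyp U m C) :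
    ∑ x, lift U m x * (1 - lift U m x) ≤
      2 * C / m * ∑ x : Finset (Fin n), |(x.card : ℝ) - m| := by
  rw [sum_levels, ← abs_levels, mul_sum]
  refine sum_le_sum fun l hl => ?_
  rw [← mul_assoc]
  exact h.var l (by rw [mem_range] at hl; omega)

theorem Hyp.total_trace (h : Hyp U m C) (J u : Finset (Fin n)) (hu : u ⊆ J) :
    (n : ℝ) * |∑ x, (if x ∩ J = u then lift U m x else 0) -
      2 ^ n * (((U.filter fun A => A ∩ J = u).card : ℝ) / n.choose m)| ≤
      J.card * ∑ x : Finset (Fin n), |(x.card : ℝ) - m| := by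
  have h1 : (2 : ℝ) ^ n * (((U.filter fun A => A ∩ J = u).card : ℝ) / n.choose m) =
      ∑ l ∈ range (n + 1),
        n.choose l * (((U.filter fun A => A ∩ J = u).card : ℝ) / n.choose m) := by
    rw [← sum_mul]
    congr 1
    have h4 := Nat.sum_range_choose n
    exact_mod_cast h4.symm
  rw [sum_levels, h1, ← sum_sub_distrib, ← abs_levels, mul_sum]
  refine (mul_le_mul_of_nonneg_left (abs_sum_le_sum_abs _ _) (by positivity)).trans ?_
  rw [mul_sum]
  refine sum_le_sum fun l hl => ?_
  rw [← mul_assoc]
  exact h.trace J u hu l (by rw [mem_range] at hl; omega)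

end Pool.Agent.OFK70
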