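import Mathlib

/-!
# OFK70: averages of a family on the levels above it

A function `g` on the subsets of `Fin n` which is on every level above `m` the mean of the level
below: the sum of `|g y - g y'|` over the pairs `y, y'` which differ by one swap decreases, so the
variation along the edges, the mean of `g (1 - g)` and the mean over a trace are controlled.
-/

namespace Pool.Agent.OFK70

open Finset

variable {n : ℕ}

/-- double counting of the pairs (a set, a point outside) -/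
theorem sum_erase (l : ℕ) (φ : Finset (Fin n) → Fin n → ℝ) :
    ∑ x ∈ powersetCard (l + 1) (univ : Finset (Fin n)), ∑ i ∈ x, φ (x.erase i) i =
      ∑ y ∈ powersetCard l (univ : Finset (Fin n)), ∑ i ∈ yᶜ, φ y i := by
  rw [sum_sigma', sum_sigma']
  refine sum_bij' (fun p _ => ⟨p.1.erase p.2, p.2⟩) (fun p _ => ⟨insert p.2 p.1, p.2⟩)
    ?_ ?_ ?_ ?_ ?_
  · rintro ⟨x, i⟩ h
    simp only [mem_sigma, mem_powersetCard_univ, mem_compl] at h ⊢
    exact ⟨by rw [card_erase_of_mem h.2, h.1]; rfl, notMem_erase i x⟩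
  · rintro ⟨y, i⟩ h
    simp only [mem_sigma, mem_powersetCard_univ, mem_compl] at h ⊢
    exact ⟨by rw [card_insert_of_notMem h.2, h.1], mem_insert_self i y⟩
  · rintro ⟨x, i⟩ h
    simp only [mem_sigma, mem_powersetCard_univ, mem_compl] at h ⊢
    simp [insert_erase h.2]
  · rintro ⟨y, i⟩ h
    simp only [mem_sigma, mem_powersetCard_univ, mem_compl] at h ⊢
    simp [erase_insert h.2]
  · rintro ⟨x, i⟩ _
    rfl

/-- the swap sum on the level `t + 1`, indexed from below -/
def Bs (g : Finset (Fin n) → ℝ) (t : ℕ) : ℝ :=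
  ∑ T ∈ powersetCard t (univ : Finset (Fin n)), ∑ a ∈ Tᶜ, ∑ b ∈ Tᶜ,
    |g (insert a T) - g (insert b T)|

/-- the swap sum on the level `t + 1`, indexed from above -/
def As (g : Finset (Fin n) → ℝ) (t : ℕ) : ℝ :=
  ∑ x ∈ powersetCard (t + 2) (univ : Finset (Fin n)), ∑ i ∈ x, ∑ j ∈ x,
    |g (x.erase i) - g (x.erase j)|

theorem As_eq (g : Finset (Fin n) → ℝ) (t : ℕ) : As g t = Bs g t := by
  unfold As Bs
  have h1 : ∀ x ∈ powersetCard (t + 2) (univ : Finset (Fin n)), ∀ i ∈ x,
      ∑ j ∈ x, |g (x.erase i) - g (x.erase j)| =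
        ∑ j ∈ x.erase i, |g (x.erase i) - g (insert i ((x.erase i).erase j))| := by
    intro x _ i hi
    rw [← insert_erase hi, sum_insert (notMem_erase i x), insert_erase hi, sub_self, abs_zero,
      zero_add]
    refine sum_congr rfl fun j hj => ?_
    have hne : j ≠ i := ne_of_mem_erase hj
    rw [← erase_insert_of_ne hne.symm, insert_erase hi]
  rw [sum_congr rfl fun x hx => sum_congr rfl fun i hi => h1 x hx i hi]
  rw [sum_erase (t + 1) (fun y i => ∑ j ∈ y, |g y - g (insert i (y.erase j))|)]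
  have h2 : ∀ y ∈ powersetCard (t + 1) (univ : Finset (Fin n)),
      ∑ i ∈ yᶜ, ∑ j ∈ y, |g y - g (insert i (y.erase j))| =
        ∑ j ∈ y, ∑ i ∈ (insert j (y.erase j))ᶜ,
          |g (insert j (y.erase j)) - g (insert i (y.erase j))| := by
    intro y _
    rw [sum_comm]
    refine sum_congr rfl fun j hj => ?_
    rw [insert_erase hj]
  rw [sum_congr rfl h2]
  rw [sum_erase t (fun T j => ∑ i ∈ (insert j T)ᶜ, |g (insert j T) - g (insert i T)|)]
  refine sum_congr rfl fun T _ => sum_congr rfl fun a ha => ?_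
  rw [← insert_erase ha, sum_insert (notMem_erase a Tᶜ), sub_self, abs_zero, zero_add,
    compl_insert]

/-- the mean value property above the level `m` -/
def Mean (g : Finset (Fin n) → ℝ) (m : ℕ) : Prop :=
  ∀ x : Finset (Fin n), m < x.card → (x.card : ℝ) * g x = ∑ i ∈ x, g (x.erase i)

theorem Bs_step (g : Finset (Fin n) → ℝ) (m t : ℕ) (hg : Mean g m) (hm : m ≤ t + 1)
    (ht : t + 2 ≤ n) : ((t : ℝ) + 2) * Bs g (t + 1) ≤ ((n : ℝ) - t - 2) * Bs g t := by
  unfold Bs
  have h1 : ((t : ℝ) + 2) * ∑ T ∈ powersetCard (t + 1) (univ : Finset (Fin n)),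
      ∑ a ∈ Tᶜ, ∑ b ∈ Tᶜ, |g (insert a T) - g (insert b T)| ≤
      ∑ T ∈ powersetCard (t + 1) (univ : Finset (Fin n)), ∑ k ∈ T,
        ∑ a ∈ (insert k (T.erase k))ᶜ, ∑ b ∈ (insert k (T.erase k))ᶜ,
          |g (insert a (T.erase k)) - g (insert b (T.erase k))| := by
    rw [mul_sum]
    refine sum_le_sum fun T hT => ?_
    have hTc : T.card = t + 1 := (mem_powersetCard.1 hT).2
    have h2 : ∑ k ∈ T, ∑ a ∈ (insert k (T.erase k))ᶜ, ∑ b ∈ (insert k (T.erase k))ᶜ,
          |g (insert a (T.erase k)) - g (insert b (T.erase k))| =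
        ∑ a ∈ Tᶜ, ∑ b ∈ Tᶜ, ∑ k ∈ T, |g (insert a (T.erase k)) - g (insert b (T.erase k))| := by
      rw [sum_congr rfl fun k hk => by rw [insert_erase hk]]
      rw [sum_comm]
      refine sum_congr rfl fun a _ => sum_comm
    rw [h2, mul_sum]
    refine sum_le_sum fun a ha => ?_
    rw [mul_sum]
    refine sum_le_sum fun b hb => ?_
    rw [mem_compl] at ha hb
    have h3 : ∀ c ∉ T, ((t : ℝ) + 2) * g (insert c T) =
        g T + ∑ k ∈ T, g (insert c (T.erase k)) := by
      intro c hc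
      have h4 := hg (insert c T) (by rw [card_insert_of_notMem hc]; omega)
      rw [card_insert_of_notMem hc, hTc, sum_insert hc, erase_insert hc] at h4
      push_cast at h4
      have h5 : ∑ k ∈ T, g ((insert c T).erase k) = ∑ k ∈ T, g (insert c (T.erase k)) := by
        refine sum_congr rfl fun k hk => ?_
        rw [erase_insert_of_ne]
        rintro rfl
        exact hc hk
      rw [h5] at h4
      rw [← h4]
      ring
    have h6 : ((t : ℝ) + 2) * |g (insert a T) - g (insert b T)| =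
        |∑ k ∈ T, (g (insert a (T.erase k)) - g (insert b (T.erase k)))| := by
      rw [sum_sub_distrib, ← abs_of_pos (show (0 : ℝ) < (t : ℝ) + 2 by positivity), ← abs_mul,
        mul_sub, h3 a ha, h3 b hb]
      congr 1
      ring
    rw [h6]
    exact abs_sum_le_sum_abs _ _
  refine h1.trans ?_
  rw [sum_erase t (fun T k => ∑ a ∈ (insert k T)ᶜ, ∑ b ∈ (insert k T)ᶜ,
    |g (insert a T) - g (insert b T)|), mul_sum]
  refine sum_le_sum fun T hT => ?_
  have hTc : T.card = t := (mem_powersetCard.1 hT).2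
  have h2 : ∀ k ∈ Tᶜ, ∑ a ∈ (insert k T)ᶜ, ∑ b ∈ (insert k T)ᶜ,
      |g (insert a T) - g (insert b T)| =
      ∑ a ∈ Tᶜ, ∑ b ∈ Tᶜ, if k ≠ a ∧ k ≠ b then |g (insert a T) - g (insert b T)| else 0 := by
    intro k hk
    rw [compl_insert]
    rw [← filter_ne' Tᶜ k, sum_filter]
    refine sum_congr rfl fun a _ => ?_
    rw [sum_filter]
    split_ifs with h
    · refine sum_congr rfl fun b _ => ?_
      by_cases hb : b = k
      · simp [hb]
      · simp [hb, Ne.symm h, Ne.symm hb]
    · push Not at h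
      symm
      refine sum_eq_zero fun b _ => ?_
      simp [h]
  rw [sum_congr rfl h2, sum_comm, mul_sum]
  refine sum_le_sum fun a ha => ?_
  rw [sum_comm, mul_sum]
  refine sum_le_sum fun b hb => ?_
  by_cases hab : a = b
  · rw [hab]
    simp
  · rw [← sum_filter, sum_const, nsmul_eq_mul]
    refine mul_le_mul_of_nonneg_right ?_ (abs_nonneg _)
    have h3 : (Tᶜ.filter fun k => k ≠ a ∧ k ≠ b) = (Tᶜ.erase a).erase b := by
      ext k
      simp only [mem_filter, mem_erase]
      tauto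
    rw [h3, card_erase_of_mem (mem_erase.2 ⟨Ne.symm hab, hb⟩), card_erase_of_mem ha, card_compl,
      Fintype.card_fin, hTc]
    have : ((n - t - 1 - 1 : ℕ) : ℝ) = (n : ℝ) - t - 2 := by
      rw [Nat.sub_sub, Nat.sub_sub, Nat.cast_sub (by omega)]
      push_cast
      ring
    rw [this]

theorem Bs_full (g : Finset (Fin n) → ℝ) {t : ℕ} (ht : n ≤ t + 1) : Bs g t = 0 := by
  unfold Bs
  refine sum_eq_zero fun T hT => sum_eq_zero fun a ha => sum_eq_zero fun b hb => ?_
  have hTc : T.card = t := (mem_powersetCard.1 hT).2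
  have h1 : Tᶜ.card ≤ 1 := by
    rw [card_compl, Fintype.card_fin, hTc]
    omega
  rw [card_le_one.1 h1 a ha b hb, sub_self, abs_zero]

/-- the swap sums are at most `S` times the number of swap pairs -/
theorem Bs_le (g : Finset (Fin n) → ℝ) (t₀ : ℕ) (S : ℝ) (hS : 0 ≤ S) (hg : Mean g (t₀ + 1))
    (h0 : Bs g t₀ ≤ S * (n.choose (t₀ + 1) * (t₀ + 1) * (n - (t₀ + 1) : ℕ))) (t : ℕ)
    (ht : t₀ ≤ t) : Bs g t ≤ S * (n.choose (t + 1) * (t + 1) * (n - (t + 1) : ℕ)) := by
  induction t, ht using Nat.le_induction with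
  | base => exact h0
  | succ t ht ih =>
    rcases Nat.lt_or_ge n (t + 2) with h | h
    · rw [Bs_full g (by omega)]
      positivity
    · have h1 := Bs_step g (t₀ + 1) t hg (by omega) h
      have h2 : ((n - (t + 1) : ℕ) : ℝ) = (n : ℝ) - t - 1 := by
        rw [Nat.cast_sub (by omega)]
        push_cast
        ring
      have h3 : ((n - (t + 1 + 1) : ℕ) : ℝ) = (n : ℝ) - t - 2 := by
        rw [Nat.cast_sub (by omega)]
        push_cast
        ring
      have h4 : (n.choose (t + 1 + 1) : ℝ) * ((t : ℝ) + 2) =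
          n.choose (t + 1) * ((n : ℝ) - t - 1) := by
        have h5 := Nat.choose_succ_right_eq n (t + 1)
        rw [← h2]
        exact_mod_cast h5
      have h5 : (0 : ℝ) ≤ (n : ℝ) - t - 2 := by
        have : ((t + 2 : ℕ) : ℝ) ≤ n := by exact_mod_cast h
        push_cast at this
        linarith
      rw [h2] at ih
      rw [h3]
      push_cast
      have h6 : ((t : ℝ) + 2) * Bs g (t + 1) ≤ ((n : ℝ) - t - 2) *
          (S * (n.choose (t + 1) * (t + 1) * ((n : ℝ) - t - 1))) :=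
        h1.trans (mul_le_mul_of_nonneg_left ih h5)
      have h7 : ((n : ℝ) - t - 2) * (S * (n.choose (t + 1) * (t + 1) * ((n : ℝ) - t - 1))) =
          ((t : ℝ) + 2) * (S * (n.choose (t + 1 + 1) * ((t : ℝ) + 1) * ((n : ℝ) - t - 2))) := by
        rw [show (n.choose (t + 1) : ℝ) * (t + 1) * ((n : ℝ) - t - 1) =
          (n.choose (t + 1) * ((n : ℝ) - t - 1)) * (t + 1) by ring, ← h4]
        ring
      rw [h7] at h6
      have h8 : (0 : ℝ) < (t : ℝ) + 2 := by positivity
      have h9 := le_of_mul_le_mul_left h6 h8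
      refine h9.trans (mul_le_mul_of_nonneg_left ?_ hS)
      refine mul_le_mul_of_nonneg_right (mul_le_mul_of_nonneg_left ?_ (by positivity)) h5
      linarith

/-- variation along the edges -/
theorem edge_le (g : Finset (Fin n) → ℝ) (t₀ : ℕ) (S : ℝ) (hS : 0 ≤ S) (hg : Mean g (t₀ + 1))
    (h0 : Bs g t₀ ≤ S * (n.choose (t₀ + 1) * (t₀ + 1) * (n - (t₀ + 1) : ℕ))) (t : ℕ)
    (ht : t₀ ≤ t) :
    ∑ x ∈ powersetCard (t + 2) (univ : Finset (Fin n)), ∑ i ∈ x, |g x - g (x.erase i)| ≤
      S * n * n.choose (t + 1) := by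
  have h1 : ((t : ℝ) + 2) * ∑ x ∈ powersetCard (t + 2) (univ : Finset (Fin n)),
      ∑ i ∈ x, |g x - g (x.erase i)| ≤ As g t := by
    unfold As
    rw [mul_sum]
    refine sum_le_sum fun x hx => ?_
    rw [mul_sum]
    refine sum_le_sum fun i hi => ?_
    have hxc : x.card = t + 2 := (mem_powersetCard.1 hx).2
    have h2 := hg x (by omega)
    rw [hxc] at h2
    push_cast at h2
    have h3 : ((t : ℝ) + 2) * |g x - g (x.erase i)| =
        |∑ j ∈ x, (g (x.erase i) - g (x.erase j))| := by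
      rw [sum_sub_distrib, ← h2, sum_const, hxc, nsmul_eq_mul, abs_sub_comm]
      push_cast
      rw [← mul_sub, abs_mul, abs_of_pos (show (0 : ℝ) < (t : ℝ) + 2 by positivity)]
    rw [h3]
    exact abs_sum_le_sum_abs _ _
  rw [As_eq] at h1
  have h2 := h1.trans (Bs_le g t₀ S hS hg h0 t ht)
  have h3 : ((n - (t + 1) : ℕ) : ℝ) ≤ n := by exact_mod_cast Nat.sub_le _ _
  have h8 : (0 : ℝ) < (t : ℝ) + 2 := by positivity
  refine le_of_mul_le_mul_left (h2.trans ?_) h8
  calc S * (n.choose (t + 1) * (t + 1) * (n - (t + 1) : ℕ))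
      ≤ S * (n.choose (t + 1) * (t + 2) * n) := by
        refine mul_le_mul_of_nonneg_left ?_ hS
        refine mul_le_mul (mul_le_mul_of_nonneg_left (by linarith) (by positivity)) h3
          (by positivity) (by positivity)
    _ = (t + 2) * (S * n * n.choose (t + 1)) := by ring

theorem var_step (g : Finset (Fin n) → ℝ) (h01 : ∀ x, 0 ≤ g x ∧ g x ≤ 1) (m t : ℕ)
    (hg : Mean g m) (hm : m ≤ t + 1) :
    ((t : ℝ) + 2) ^ 2 * ∑ x ∈ powersetCard (t + 2) (univ : Finset (Fin n)), g x * (1 - g x) ≤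
      ((t : ℝ) + 2) * ((n - (t + 1) : ℕ) *
        ∑ x ∈ powersetCard (t + 1) (univ : Finset (Fin n)), g x * (1 - g x)) + As g t / 2 := by
  have h1 : ∀ x ∈ powersetCard (t + 2) (univ : Finset (Fin n)),
      ((t : ℝ) + 2) ^ 2 * (g x * (1 - g x)) ≤
        ((t : ℝ) + 2) * ∑ i ∈ x, g (x.erase i) * (1 - g (x.erase i)) +
          (∑ i ∈ x, ∑ j ∈ x, |g (x.erase i) - g (x.erase j)|) / 2 := by
    intro x hx
    have hxc : x.card = t + 2 := (mem_powersetCard.1 hx).2
    have h2 := hg x (by omega)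
    rw [hxc] at h2
    push_cast at h2
    have h3 : ∑ i ∈ x, ∑ j ∈ x, (g (x.erase i) - g (x.erase j)) ^ 2 ≤
        ∑ i ∈ x, ∑ j ∈ x, |g (x.erase i) - g (x.erase j)| := by
      refine sum_le_sum fun i _ => sum_le_sum fun j _ => ?_
      have h4 : |g (x.erase i) - g (x.erase j)| ≤ 1 := by
        rw [abs_le]
        constructor <;> linarith [(h01 (x.erase i)).1, (h01 (x.erase i)).2,
          (h01 (x.erase j)).1, (h01 (x.erase j)).2]
      rw [← sq_abs, sq]
      exact mul_le_of_le_one_right (abs_nonneg _) h4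
    have h5 : ∑ i ∈ x, ∑ j ∈ x, (g (x.erase i) - g (x.erase j)) ^ 2 =
        2 * ((t : ℝ) + 2) * ∑ i ∈ x, g (x.erase i) ^ 2 - 2 * (∑ i ∈ x, g (x.erase i)) ^ 2 := by
      have h6 : ∀ i ∈ x, ∑ j ∈ x, (g (x.erase i) - g (x.erase j)) ^ 2 =
          ((t : ℝ) + 2) * g (x.erase i) ^ 2 - 2 * g (x.erase i) * ∑ j ∈ x, g (x.erase j) +
            ∑ j ∈ x, g (x.erase j) ^ 2 := by
        intro i _
        rw [mul_sum, show ((t : ℝ) + 2) * g (x.erase i) ^ 2 = ∑ _j ∈ x, g (x.erase i) ^ 2 by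
          rw [sum_const, hxc, nsmul_eq_mul]; push_cast; rfl, ← sum_sub_distrib, ← sum_add_distrib]
        refine sum_congr rfl fun j _ => by ring
      rw [sum_congr rfl h6, sum_add_distrib, sum_sub_distrib, ← mul_sum, ← sum_mul, ← mul_sum,
        sum_const, hxc, nsmul_eq_mul]
      push_cast
      ring
    have h7 : ∑ i ∈ x, g (x.erase i) * (1 - g (x.erase i)) =
        ∑ i ∈ x, g (x.erase i) - ∑ i ∈ x, g (x.erase i) ^ 2 := by
      rw [← sum_sub_distrib]
      refine sum_congr rfl fun j _ => by ring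
    rw [h7]
    rw [h5, ← h2] at h3
    rw [← h2]
    nlinarith [h3]
  calc ((t : ℝ) + 2) ^ 2 * ∑ x ∈ powersetCard (t + 2) (univ : Finset (Fin n)), g x * (1 - g x)
      ≤ ∑ x ∈ powersetCard (t + 2) (univ : Finset (Fin n)),
        (((t : ℝ) + 2) * ∑ i ∈ x, g (x.erase i) * (1 - g (x.erase i)) +
          (∑ i ∈ x, ∑ j ∈ x, |g (x.erase i) - g (x.erase j)|) / 2) := by
        rw [mul_sum]
        exact sum_le_sum h1
    _ = ((t : ℝ) + 2) * ∑ x ∈ powersetCard (t + 2) (univ : Finset (Fin n)),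
          ∑ i ∈ x, g (x.erase i) * (1 - g (x.erase i)) + As g t / 2 := by
        unfold As
        rw [sum_add_distrib, ← mul_sum, sum_div]
    _ = _ := by
        rw [sum_erase (t + 1) (fun y _ => g y * (1 - g y))]
        congr 2
        rw [mul_sum]
        refine sum_congr rfl fun y hy => ?_
        rw [sum_const, card_compl, Fintype.card_fin, (mem_powersetCard.1 hy).2, nsmul_eq_mul]

/-- the variance on the level `t + 1` -/
theorem var_le (g : Finset (Fin n) → ℝ) (h01 : ∀ x, 0 ≤ g x ∧ g x ≤ 1) (t₀ : ℕ) (S : ℝ)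
    (hS : 0 ≤ S) (hg : Mean g (t₀ + 1))
    (h0 : Bs g t₀ ≤ S * (n.choose (t₀ + 1) * (t₀ + 1) * (n - (t₀ + 1) : ℕ)))
    (hb : ∀ x : Finset (Fin n), x.card = t₀ + 1 → g x = 0 ∨ g x = 1) (t : ℕ) (ht : t₀ ≤ t) :
    ∑ x ∈ powersetCard (t + 1) (univ : Finset (Fin n)), g x * (1 - g x) ≤
      S * ((t : ℝ) - t₀) * n.choose (t + 1) := by
  induction t, ht using Nat.le_induction with
  | base =>
    rw [sub_self, mul_zero, zero_mul]
    refine le_of_eq (sum_eq_zero fun x hx => ?_)
    rcases hb x (mem_powersetCard.1 hx).2 with h | h <;> rw [h] <;> simp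
  | succ t ht ih =>
    have h1 := var_step g h01 (t₀ + 1) t hg (by omega)
    rw [As_eq] at h1
    have h2 := Bs_le g t₀ S hS hg h0 t ht
    have h4 : (n.choose (t + 1 + 1) : ℝ) * ((t : ℝ) + 2) =
        n.choose (t + 1) * (n - (t + 1) : ℕ) := by
      have h5 := Nat.choose_succ_right_eq n (t + 1)
      exact_mod_cast h5
    have h8 : (0 : ℝ) < ((t : ℝ) + 2) ^ 2 := by positivity
    refine le_of_mul_le_mul_left (h1.trans ?_) h8
    have ht' : (t₀ : ℝ) ≤ t := by exact_mod_cast ht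
    calc ((t : ℝ) + 2) * ((n - (t + 1) : ℕ) *
          ∑ x ∈ powersetCard (t + 1) (univ : Finset (Fin n)), g x * (1 - g x)) + Bs g t / 2
        ≤ ((t : ℝ) + 2) * ((n - (t + 1) : ℕ) * (S * ((t : ℝ) - t₀) * n.choose (t + 1))) +
          S * (n.choose (t + 1) * (t + 1) * (n - (t + 1) : ℕ)) := by
          refine add_le_add (mul_le_mul_of_nonneg_left (mul_le_mul_of_nonneg_left ih
            (by positivity)) (by positivity)) ?_
          have h9 : (0 : ℝ) ≤ S * (n.choose (t + 1) * (t + 1) * (n - (t + 1) : ℕ)) := by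
            positivity
          linarith
      _ = ((t : ℝ) + 2) * S * ((t : ℝ) - t₀) * (n.choose (t + 1) * (n - (t + 1) : ℕ)) +
          S * (t + 1) * (n.choose (t + 1) * (n - (t + 1) : ℕ)) := by ring
      _ = ((t : ℝ) + 2) * S * ((t : ℝ) - t₀) * (n.choose (t + 1 + 1) * ((t : ℝ) + 2)) +
          S * (t + 1) * (n.choose (t + 1 + 1) * ((t : ℝ) + 2)) := by rw [h4]
      _ ≤ ((t : ℝ) + 2) * S * ((t : ℝ) - t₀) * (n.choose (t + 1 + 1) * ((t : ℝ) + 2)) +
          S * (t + 2) * (n.choose (t + 1 + 1) * ((t : ℝ) + 2)) := by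
          gcongr
          norm_num
      _ = ((t : ℝ) + 2) ^ 2 * (S * (((t + 1 : ℕ) : ℝ) - t₀) * n.choose (t + 1 + 1)) := by
          push_cast
          ring

end Pool.Agent.OFK70
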