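import Pool.Agent.OFK70.Up

/-!
# OFK70: the lift of a family on the slice to the cube
-/

namespace Pool.Agent.OFK70

open Finset
open scoped FinsetFamily

variable {n : ℕ}

/-- the function on the cube: the share of the members of `U` comparable with `x` -/
noncomputable def lift (U : Finset (Finset (Fin n))) (m : ℕ) (x : Finset (Fin n)) : ℝ :=
  if m ≤ x.card then up U m x else up Uᶜˢ (n - m) xᶜ

theorem sum_compl_level (l : ℕ) (hl : l ≤ n) (φ : Finset (Fin n) → ℝ) :
    ∑ x ∈ powersetCard l (univ : Finset (Fin n)), φ x =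
      ∑ y ∈ powersetCard (n - l) (univ : Finset (Fin n)), φ yᶜ := by
  refine sum_nbij' (fun x => xᶜ) (fun y => yᶜ) ?_ ?_ ?_ ?_ ?_
  · intro x hx
    rw [mem_powersetCard_univ] at hx ⊢
    rw [card_compl, Fintype.card_fin, hx]
  · intro x hx
    rw [mem_powersetCard_univ] at hx ⊢
    rw [card_compl, Fintype.card_fin, hx]
    omega
  · intro x _
    exact compl_compl x
  · intro x _
    exact compl_compl x
  · intro x _
    rw [compl_compl]

section

variable (U : Finset (Finset (Fin n))) (m : ℕ)

theorem compls_card (hmn : m ≤ n) (hU : ∀ A ∈ U, A.card = m) : ∀ A ∈ Uᶜˢ, A.card = n - m := by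
  intro A hA
  rw [mem_compls] at hA
  have h1 := hU _ hA
  rw [card_compl, Fintype.card_fin] at h1
  have h2 := card_le_univ A
  rw [Fintype.card_fin] at h2
  omega

theorem lift_mem (hmn : m ≤ n) (hU : ∀ A ∈ U, A.card = m) (x : Finset (Fin n)) :
    0 ≤ lift U m x ∧ lift U m x ≤ 1 := by
  unfold lift
  split_ifs
  · exact up_mem U m hU x
  · exact up_mem _ _ (compls_card U m hmn hU) _

theorem lift_high (x : Finset (Fin n)) (hx : m ≤ x.card) : lift U m x = up U m x := by
  unfold lift
  rw [if_pos hx]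

theorem lift_low (hmn : m ≤ n) (hU : ∀ A ∈ U, A.card = m) (x : Finset (Fin n))
    (hx : x.card ≤ m) : lift U m x = up Uᶜˢ (n - m) xᶜ := by
  unfold lift
  split_ifs with h
  · have hxm : x.card = m := by omega
    have hc : xᶜ.card = n - m := by rw [card_compl, Fintype.card_fin, hxm]
    rw [up_base U m hU x hxm, up_base _ _ (compls_card U m hmn hU) _ hc]
    have h1 : xᶜ ∈ Uᶜˢ ↔ x ∈ U := by rw [mem_compls, compl_compl]
    simp only [h1]
  · rfl

theorem Bs_up (t : ℕ) (hm : m = t + 1) (hU : ∀ A ∈ U, A.card = m) :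
    Bs (up U m) t ≤ 2 * ((n - (t + 1) : ℕ) : ℝ) * pairs U :=
  Bs_ind U t (by rw [← hm]; exact hU) _ fun x hx => up_base U m hU x (by rw [hx, hm])

theorem Bs_up_compl (t t' : ℕ) (hm : m = t + 1) (hm' : n - m = t' + 1)
    (hU : ∀ A ∈ U, A.card = m) : Bs (up Uᶜˢ (n - m)) t' = Bs (up U m) t := by
  rw [← As_eq]
  unfold As Bs
  rw [sum_compl_level (t' + 2) (by omega)]
  have h1 : n - (t' + 2) = t := by omega
  rw [h1]
  refine sum_congr rfl fun T hT => ?_
  have hTc : T.card = t := (mem_powersetCard.1 hT).2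
  have h2 : ∀ a ∈ Tᶜ, up Uᶜˢ (n - m) (Tᶜ.erase a) = up U m (insert a T) := by
    intro a ha
    have ha' := mem_compl.1 ha
    have h3 : (insert a T).card = m := by rw [card_insert_of_notMem ha', hTc, hm]
    have h4 : (Tᶜ.erase a).card = n - m := by
      rw [card_erase_of_mem ha, card_compl, Fintype.card_fin, hTc]
      omega
    rw [up_base U m hU _ h3, up_base _ _ (compls_card U m (by omega) hU) _ h4]
    have h5 : Tᶜ.erase a ∈ Uᶜˢ ↔ insert a T ∈ U := by
      rw [mem_compls, ← compl_insert, compl_compl]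
    simp only [h5]
  refine sum_congr rfl fun a ha => sum_congr rfl fun b hb => ?_
  rw [h2 a ha, h2 b hb]

end

variable (U : Finset (Finset (Fin n))) (m : ℕ) (C : ℝ)

/-- the hypothesis of the level estimates -/
structure Hyp : Prop where
  hm : 1 ≤ m
  hmn : m < n
  hU : ∀ A ∈ U, A.card = m
  hC : 0 ≤ C
  hp : (pairs U : ℝ) ≤ C * n.choose m

variable {U m C}

theorem Hyp.high (h : Hyp U m C) (t : ℕ) (hm : m = t + 1) :
    Bs (up U m) t ≤ 2 * C / m * (n.choose (t + 1) * (t + 1) * (n - (t + 1) : ℕ)) := by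
  refine (Bs_up U m t hm h.hU).trans ?_
  have h1 := h.hp
  have h2 : (0 : ℝ) < m := by exact_mod_cast h.hm
  calc 2 * ((n - (t + 1) : ℕ) : ℝ) * pairs U
      ≤ 2 * ((n - (t + 1) : ℕ) : ℝ) * (C * n.choose m) :=
        mul_le_mul_of_nonneg_left h1 (by positivity)
    _ = _ := by
        rw [← hm, show ((t : ℝ) + 1) = m by rw [hm]; push_cast; rfl]
        field_simp

theorem Hyp.low (h : Hyp U m C) (t' : ℕ) (hm' : n - m = t' + 1) :
    Bs (up Uᶜˢ (n - m)) t' ≤ 2 * C / m * (n.choose (t' + 1) * (t' + 1) * (n - (t' + 1) : ℕ)) := by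
  have hmn := h.hmn
  have hm1 := h.hm
  rw [Bs_up_compl U m (m - 1) t' (by omega) hm' h.hU]
  refine (h.high (m - 1) (by omega)).trans (le_of_eq ?_)
  have h1 : m - 1 + 1 = m := by omega
  have h2 : n.choose (t' + 1) = n.choose m := by
    rw [← hm', Nat.choose_symm (by omega)]
  have h3 : n - (t' + 1) = m := by omega
  have h4 : (((m - 1 : ℕ) : ℝ) + 1) = m := by
    rw [← Nat.cast_add_one, h1]
  have h5 : ((n - m : ℕ) : ℝ) = (t' : ℝ) + 1 := by
    rw [hm']
    push_cast
    rfl
  rw [h1, h2, h3, h4, h5]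
  ring

theorem Hyp.S_nonneg (h : Hyp U m C) : 0 ≤ 2 * C / m := by
  have := h.hC
  positivity

theorem Hyp.edge (h : Hyp U m C) (l : ℕ) (hl : l ≤ n) :
    ∑ x ∈ powersetCard l (univ : Finset (Fin n)), ∑ i ∈ x, |lift U m x - lift U m (x.erase i)| ≤
      2 * C / m * n * (n + 1).choose l := by
  have hmn := h.hmn
  have hm1 := h.hm
  have hS := h.S_nonneg
  rcases Nat.eq_zero_or_pos l with rfl | hl0
  · rw [powersetCard_zero, sum_singleton, sum_empty]
    positivity
  have hch : (n + 1).choose l = n.choose (l - 1) + n.choose l := by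
    obtain ⟨k, rfl⟩ : ∃ k, l = k + 1 := ⟨l - 1, by omega⟩
    rw [Nat.choose_succ_succ, Nat.add_sub_cancel]
  rcases Nat.lt_or_ge m l with hml | hml
  · obtain ⟨t₀, ht₀⟩ : ∃ t, m = t + 1 := ⟨m - 1, by omega⟩
    obtain ⟨t, ht⟩ : ∃ t, l = t + 2 := ⟨l - 2, by omega⟩
    have h1 := edge_le (up U m) t₀ (2 * C / m) hS (by rw [← ht₀]; exact up_mean U m h.hU)
      (h.high t₀ ht₀) t (by omega)
    have h2 : ∑ x ∈ powersetCard l (univ : Finset (Fin n)), ∑ i ∈ x,
        |lift U m x - lift U m (x.erase i)| =
        ∑ x ∈ powersetCard (t + 2) (univ : Finset (Fin n)), ∑ i ∈ x,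
          |up U m x - up U m (x.erase i)| := by
      rw [ht]
      refine sum_congr rfl fun x hx => sum_congr rfl fun i hi => ?_
      have hxc : x.card = t + 2 := (mem_powersetCard.1 hx).2
      rw [lift_high U m x (by omega), lift_high U m (x.erase i)
        (by rw [card_erase_of_mem hi]; omega)]
    rw [h2]
    refine h1.trans (mul_le_mul_of_nonneg_left ?_ (by positivity))
    rw [hch, ht]
    push_cast
    have : (0 : ℝ) ≤ n.choose (t + 2) := by positivity
    have h3 : t + 2 - 1 = t + 1 := by omega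
    linarith
  · obtain ⟨t₀, ht₀⟩ : ∃ t, n - m = t + 1 := ⟨n - m - 1, by omega⟩
    obtain ⟨t, ht⟩ : ∃ t, n - l = t + 1 := ⟨n - l - 1, by omega⟩
    have h1 := edge_le (up Uᶜˢ (n - m)) t₀ (2 * C / m) hS
      (by rw [← ht₀]; exact up_mean _ _ (compls_card U m hmn.le h.hU)) (h.low t₀ ht₀) t (by omega)
    have h2 : ∑ x ∈ powersetCard l (univ : Finset (Fin n)), ∑ i ∈ x,
        |lift U m x - lift U m (x.erase i)| =
        ∑ x ∈ powersetCard (t + 2) (univ : Finset (Fin n)), ∑ i ∈ x,
          |up Uᶜˢ (n - m) x - up Uᶜˢ (n - m) (x.erase i)| := by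
      rw [sum_compl_level l hl, ht]
      have h3 := sum_erase (n := n) (t + 1)
        (fun y i => |up Uᶜˢ (n - m) (insert i y) - up Uᶜˢ (n - m) y|)
      have h4 : ∀ x ∈ powersetCard (t + 1 + 1) (univ : Finset (Fin n)),
          ∑ i ∈ x, |up Uᶜˢ (n - m) (insert i (x.erase i)) - up Uᶜˢ (n - m) (x.erase i)| =
          ∑ i ∈ x, |up Uᶜˢ (n - m) x - up Uᶜˢ (n - m) (x.erase i)| := by
        intro x _
        refine sum_congr rfl fun i hi => ?_
        rw [insert_erase hi]
      rw [sum_congr rfl h4] at h3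
      rw [h3]
      refine sum_congr rfl fun y hy => sum_congr rfl fun i hi => ?_
      have hyc : y.card = t + 1 := (mem_powersetCard.1 hy).2
      have hyc' : yᶜ.card = n - (t + 1) := by rw [card_compl, Fintype.card_fin, hyc]
      rw [lift_low U m hmn.le h.hU yᶜ (by omega), lift_low U m hmn.le h.hU (yᶜ.erase i)
        (by rw [card_erase_of_mem hi]; omega), compl_compl, ← compl_insert, compl_compl,
        abs_sub_comm]
    rw [h2]
    refine h1.trans (mul_le_mul_of_nonneg_left ?_ (by positivity))
    rw [hch, ← ht, Nat.choose_symm hl]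
    push_cast
    have : (0 : ℝ) ≤ n.choose (l - 1) := by positivity
    linarith

theorem Hyp.var (h : Hyp U m C) (l : ℕ) (hl : l ≤ n) :
    ∑ x ∈ powersetCard l (univ : Finset (Fin n)), lift U m x * (1 - lift U m x) ≤
      2 * C / m * |(l : ℝ) - m| * n.choose l := by
  have hmn := h.hmn
  have hm1 := h.hm
  have hS := h.S_nonneg
  rcases Nat.lt_or_ge l m with hml | hml
  · obtain ⟨t₀, ht₀⟩ : ∃ t, n - m = t + 1 := ⟨n - m - 1, by omega⟩
    obtain ⟨t, ht⟩ : ∃ t, n - l = t + 1 := ⟨n - l - 1, by omega⟩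
    have h1 := var_le (up Uᶜˢ (n - m)) (up_mem _ _ (compls_card U m hmn.le h.hU)) t₀ (2 * C / m) hS
      (by rw [← ht₀]; exact up_mean _ _ (compls_card U m hmn.le h.hU)) (h.low t₀ ht₀)
      (by
        intro x hx
        rw [up_base _ _ (compls_card U m hmn.le h.hU) x (by omega)]
        split_ifs
        · exact Or.inr rfl
        · exact Or.inl rfl) t (by omega)
    have h2 : ∑ x ∈ powersetCard l (univ : Finset (Fin n)), lift U m x * (1 - lift U m x) =
        ∑ x ∈ powersetCard (t + 1) (univ : Finset (Fin n)),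
          up Uᶜˢ (n - m) x * (1 - up Uᶜˢ (n - m) x) := by
      rw [sum_compl_level l hl, ht]
      refine sum_congr rfl fun y hy => ?_
      have hyc : y.card = t + 1 := (mem_powersetCard.1 hy).2
      have hyc' : yᶜ.card = n - (t + 1) := by rw [card_compl, Fintype.card_fin, hyc]
      rw [lift_low U m hmn.le h.hU yᶜ (by omega), compl_compl]
    rw [h2]
    refine h1.trans (le_of_eq ?_)
    rw [← ht, Nat.choose_symm hl]
    congr 2
    rw [abs_of_nonpos (by
      have : (l : ℝ) ≤ m := by exact_mod_cast hml.le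
      linarith)]
    have h3 : (t : ℝ) + 1 = (n : ℝ) - l := by
      rw [← Nat.cast_sub hl, ht]
      push_cast
      rfl
    have h4 : (t₀ : ℝ) + 1 = (n : ℝ) - m := by
      rw [← Nat.cast_sub hmn.le, ht₀]
      push_cast
      rfl
    linarith
  · obtain ⟨t₀, ht₀⟩ : ∃ t, m = t + 1 := ⟨m - 1, by omega⟩
    obtain ⟨t, ht⟩ : ∃ t, l = t + 1 := ⟨l - 1, by omega⟩
    have h1 := var_le (up U m) (up_mem _ _ h.hU) t₀ (2 * C / m) hS
      (by rw [← ht₀]; exact up_mean U m h.hU) (h.high t₀ ht₀)
      (by
        intro x hx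
        rw [up_base U m h.hU x (by omega)]
        split_ifs
        · exact Or.inr rfl
        · exact Or.inl rfl) t (by omega)
    have h2 : ∑ x ∈ powersetCard l (univ : Finset (Fin n)), lift U m x * (1 - lift U m x) =
        ∑ x ∈ powersetCard (t + 1) (univ : Finset (Fin n)), up U m x * (1 - up U m x) := by
      rw [ht]
      refine sum_congr rfl fun x hx => ?_
      have hxc : x.card = t + 1 := (mem_powersetCard.1 hx).2
      rw [lift_high U m x (by omega)]
    rw [h2]
    refine h1.trans (le_of_eq ?_)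
    rw [← ht]
    congr 2
    rw [abs_of_nonneg (by
      have : (m : ℝ) ≤ l := by exact_mod_cast hml
      linarith), ht]
    rw [show ((m : ℕ) : ℝ) = (t₀ : ℝ) + 1 by rw [ht₀]; push_cast; rfl]
    push_cast
    ring

theorem filter_trace (l : ℕ) (J u : Finset (Fin n)) (U : Finset (Finset (Fin n)))
    (hU : ∀ A ∈ U, A.card = l) :
    ∑ y ∈ powersetCard l (univ : Finset (Fin n)), (if y ∩ J = u then
      (if y ∈ U then (1 : ℝ) else 0) else 0) = ((U.filter fun A => A ∩ J = u).card : ℝ) := by
  rw [← sum_filter, ← sum_filter, sum_const, nsmul_eq_mul, mul_one, filter_filter]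
  congr 2
  ext A
  rw [mem_filter, mem_filter, mem_powersetCard_univ]
  constructor
  · exact fun h => ⟨h.2.2, h.2.1⟩
  · exact fun h => ⟨hU A h.1, h.2, h.1⟩

theorem Hyp.trace (h : Hyp U m C) (J u : Finset (Fin n)) (hu : u ⊆ J) (l : ℕ) (hl : l ≤ n) :
    (n : ℝ) * |∑ x ∈ powersetCard l (univ : Finset (Fin n)),
      (if x ∩ J = u then lift U m x else 0) -
      n.choose l * (((U.filter fun A => A ∩ J = u).card : ℝ) / n.choose m)| ≤
      J.card * |(l : ℝ) - m| * n.choose l := by
  have hmn := h.hmn
  have hm1 := h.hm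
  have hS := h.S_nonneg
  have hcpos : (0 : ℝ) < n.choose m := by exact_mod_cast Nat.choose_pos hmn.le
  rcases Nat.lt_or_ge l m with hml | hml
  · have hU' := compls_card U m hmn.le h.hU
    have h1 := trace_le (up Uᶜˢ (n - m)) (up_mem _ _ hU') (n - m) (up_mean _ _ hU') (by omega)
      (Nat.sub_le _ _) J (J \ u) (((U.filter fun A => A ∩ J = u).card : ℝ) / n.choose m) (by
        rw [Nat.choose_symm hmn.le, mul_div_cancel₀ _ hcpos.ne']
        have h2 : ((U.filter fun A => A ∩ J = u).card : ℝ) =
            ((Uᶜˢ.filter fun A => A ∩ J = J \ u).card : ℝ) := by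
          congr 1
          refine card_nbij' (fun A => Aᶜ) (fun A => Aᶜ) ?_ ?_ ?_ ?_
          · intro A hA
            have hA' := mem_filter.1 (mem_coe.1 hA)
            refine mem_coe.2 (mem_filter.2 ⟨?_, ?_⟩)
            · rw [mem_compls, compl_compl]
              exact hA'.1
            · rw [← hA'.2]
              ext z
              simp only [mem_inter, mem_compl, mem_sdiff]
              tauto
          · intro A hA
            have hA' := mem_filter.1 (mem_coe.1 hA)
            refine mem_coe.2 (mem_filter.2 ⟨?_, ?_⟩)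
            · exact mem_compls.1 hA'.1
            · have h5 := hA'.2
              ext z
              have h6 := Finset.ext_iff.1 h5 z
              simp only [mem_inter, mem_compl, mem_sdiff] at h6 ⊢
              have h7 := @hu z
              tauto
          · intro A _
            exact compl_compl A
          · intro A _
            exact compl_compl A
        rw [h2, ← filter_trace (n - m) J (J \ u) Uᶜˢ hU']
        refine sum_congr rfl fun y hy => ?_
        rw [up_base _ _ hU' y (mem_powersetCard.1 hy).2]) (n - l) (by omega)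
    have h2 : ∑ x ∈ powersetCard l (univ : Finset (Fin n)),
        (if x ∩ J = u then lift U m x else 0) =
        ∑ x ∈ powersetCard (n - l) (univ : Finset (Fin n)),
          (if x ∩ J = J \ u then up Uᶜˢ (n - m) x else 0) := by
      rw [sum_compl_level l hl]
      refine sum_congr rfl fun y hy => ?_
      have hyc : y.card = n - l := (mem_powersetCard.1 hy).2
      have hyc' : yᶜ.card = n - (n - l) := by rw [card_compl, Fintype.card_fin, hyc]
      have h3 : yᶜ ∩ J = u ↔ y ∩ J = J \ u := by
        constructor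
        · rintro rfl
          ext z
          simp only [mem_inter, mem_compl, mem_sdiff]
          tauto
        · intro h5
          ext z
          have h6 := Finset.ext_iff.1 h5 z
          simp only [mem_inter, mem_compl, mem_sdiff] at h6 ⊢
          have h7 := @hu z
          tauto
      rw [lift_low U m hmn.le h.hU yᶜ (by omega), compl_compl]
      simp only [h3]
    rw [h2]
    rw [Nat.choose_symm hl] at h1
    refine h1.trans (le_of_eq ?_)
    congr 2
    rw [abs_of_nonpos (by
      have : (l : ℝ) ≤ m := by exact_mod_cast hml.le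
      linarith), Nat.cast_sub hl, Nat.cast_sub hmn.le]
    ring
  · have h1 := trace_le (up U m) (up_mem _ _ h.hU) m (up_mean _ _ h.hU) (by omega)
      hmn.le J u (((U.filter fun A => A ∩ J = u).card : ℝ) / n.choose m) (by
        rw [mul_div_cancel₀ _ hcpos.ne', ← filter_trace m J u U h.hU]
        refine sum_congr rfl fun y hy => ?_
        rw [up_base _ _ h.hU y (mem_powersetCard.1 hy).2]) l hml
    have h2 : ∑ x ∈ powersetCard l (univ : Finset (Fin n)),
        (if x ∩ J = u then lift U m x else 0) =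
        ∑ x ∈ powersetCard l (univ : Finset (Fin n)), (if x ∩ J = u then up U m x else 0) := by
      refine sum_congr rfl fun x hx => ?_
      have hxc : x.card = l := (mem_powersetCard.1 hx).2
      rw [lift_high U m x (by omega)]
    rw [h2]
    refine h1.trans (le_of_eq ?_)
    congr 2
    rw [abs_of_nonneg (by
      have : (m : ℝ) ≤ l := by exact_mod_cast hml
      linarith)]

end Pool.Agent.OFK70
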