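import Pool.Agent.OFK70.Junta

/-!
# OFK70: the junta theorem on a middle level, assembly
-/

namespace Pool.Agent.OFK70

open Finset
open scoped FinsetFamily

variable {n : ℕ}

theorem up_all (m : ℕ) (x : Finset (Fin n)) (hx : m ≤ x.card) :
    up (powersetCard m (univ : Finset (Fin n))) m x = 1 := by
  unfold up
  have h1 : (powersetCard m (univ : Finset (Fin n))).filter (fun A => A ⊆ x) =
      powersetCard m x := by
    ext A
    rw [mem_filter, mem_powersetCard_univ, mem_powersetCard, and_comm]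
  rw [h1, card_powersetCard]
  refine div_self ?_
  exact_mod_cast (Nat.choose_pos hx).ne'

theorem compls_all (m : ℕ) (hmn : m ≤ n) :
    (powersetCard m (univ : Finset (Fin n)))ᶜˢ = powersetCard (n - m) (univ : Finset (Fin n)) := by
  ext A
  rw [mem_compls, mem_powersetCard_univ, mem_powersetCard_univ, card_compl, Fintype.card_fin]
  have h2 := card_le_univ A
  rw [Fintype.card_fin] at h2
  omega

theorem lift_all (m : ℕ) (hmn : m ≤ n) (x : Finset (Fin n)) :
    lift (powersetCard m (univ : Finset (Fin n))) m x = 1 := by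
  unfold lift
  split_ifs with h
  · exact up_all m x h
  · rw [compls_all m hmn]
    refine up_all _ _ ?_
    rw [card_compl, Fintype.card_fin]
    omega

theorem Hyp_all (m : ℕ) (hm : 1 ≤ m) (hmn : m < n) :
    Hyp (powersetCard m (univ : Finset (Fin n))) m 0 := by
  refine ⟨hm, hmn, fun A hA => (mem_powersetCard_univ.1 hA), le_rfl, ?_⟩
  rw [zero_mul]
  refine le_of_eq ?_
  unfold pairs
  rw [Nat.cast_eq_zero]
  refine sum_eq_zero fun T hT => ?_
  rw [card_eq_zero, filter_eq_empty_iff]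
  rintro z _ ⟨hz, hzT⟩
  apply hzT
  rw [mem_shadow_iff_insert_mem] at hT
  obtain ⟨a, ha, hT⟩ := hT
  rw [mem_powersetCard_univ, card_insert_of_notMem ha] at hT
  rw [mem_powersetCard_univ, card_insert_of_notMem hz]
  exact hT

/-- the number of `m`-sets with a given trace is close to `2 ^ (- |J|) * C(n, m)` -/
theorem trace_density (m : ℕ) (hm : 1 ≤ m) (hmn : m < n) (J u : Finset (Fin n)) (hu : u ⊆ J)
    (hum : u.card ≤ m) :
    (n : ℝ) * |(2 : ℝ) ^ (n - J.card) -
      2 ^ n * (((n - J.card).choose (m - u.card) : ℝ) / n.choose m)| ≤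
      J.card * ∑ x : Finset (Fin n), |(x.card : ℝ) - m| := by
  have h1 := (Hyp_all (n := n) m hm hmn).total_trace J u hu
  rw [card_trace m J u hu hum] at h1
  have h2 : ∑ x : Finset (Fin n),
      (if x ∩ J = u then lift (powersetCard m (univ : Finset (Fin n))) m x else 0) =
      (2 : ℝ) ^ (n - J.card) := by
    rw [← sum_filter, sum_congr rfl fun x _ => lift_all m hmn.le x, sum_const,
      card_trace_cube J u hu, nsmul_eq_mul, mul_one]
    push_cast
    rfl
  rw [h2] at h1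
  exact h1

theorem pr_mem {U : Finset (Finset (Fin n))} {m : ℕ} (hU : ∀ A ∈ U, A.card = m)
    {J u : Finset (Fin n)} (hu : u ⊆ J) (hum : u.card ≤ m) :
    0 ≤ pr U m J u ∧ pr U m J u ≤ 1 ∧
      pr U m J u * (((n - J.card).choose (m - u.card) : ℝ) / n.choose m) =
        ((U.filter fun A => A ∩ J = u).card : ℝ) / n.choose m := by
  have h1 : (U.filter fun A => A ∩ J = u).card ≤ (n - J.card).choose (m - u.card) := by
    rw [← card_trace m J u hu hum]
    refine card_le_card ?_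
    intro A hA
    rw [mem_filter] at hA ⊢
    exact ⟨mem_powersetCard_univ.2 (hU A hA.1), hA.2⟩
  have h1' : ((U.filter fun A => A ∩ J = u).card : ℝ) ≤ ((n - J.card).choose (m - u.card) : ℝ) := by
    exact_mod_cast h1
  refine ⟨by unfold pr; positivity, ?_, ?_⟩
  · unfold pr
    exact div_le_one_of_le₀ h1' (by positivity)
  · unfold pr
    rcases Nat.eq_zero_or_pos ((n - J.card).choose (m - u.card)) with h | h
    · rw [h] at h1'
      have h2 : ((U.filter fun A => A ∩ J = u).card : ℝ) = 0 := by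
        refine le_antisymm (by simpa using h1') (by positivity)
      rw [h2]
      simp
    · have h2 : ((n - J.card).choose (m - u.card) : ℝ) ≠ 0 := by exact_mod_cast h.ne'
      rw [mul_div_assoc', div_mul_cancel₀ _ h2]

theorem avg_sum (f : Finset (Fin n) → ℝ) (J : Finset (Fin n)) :
    ∑ x, Pool.Agent.OFK.avg f J x ^ 2 = ∑ u ∈ J.powerset, 2 ^ (n - J.card) *
      ((∑ x, (if x ∩ J = u then f x else 0)) / 2 ^ (n - J.card)) ^ 2 := by
  have h1 : ∀ x : Finset (Fin n), x ∈ (univ : Finset (Finset (Fin n))) → x ∩ J ∈ J.powerset :=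
    fun x _ => mem_powerset.2 inter_subset_right
  rw [← sum_fiberwise_of_maps_to h1]
  refine sum_congr rfl fun u hu => ?_
  have h2 : ∀ x ∈ (univ : Finset (Finset (Fin n))).filter (fun x => x ∩ J = u),
      Pool.Agent.OFK.avg f J x ^ 2 =
        ((∑ x, (if x ∩ J = u then f x else 0)) / 2 ^ (n - J.card)) ^ 2 := by
    intro x hx
    unfold Pool.Agent.OFK.avg
    rw [(mem_filter.1 hx).2, sum_filter]
  rw [sum_congr rfl h2, sum_const, card_trace_cube J u (mem_powerset.1 hu), nsmul_eq_mul]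
  push_cast
  rfl

/-- **The junta theorem on a middle level.** -/
theorem slice_junta (c : ℕ) (C ε : ℝ) (hε : 0 < ε) : ∃ j₀ N : ℕ, ∀ (n m : ℕ)
    (U : Finset (Finset (Fin n))), N ≤ n → 2 * m ≤ n + c → n ≤ 2 * m + c →
    (∀ A ∈ U, A.card = m) →
    (pairs U : ℝ) ≤ C * n.choose m →
    ∃ J : Finset (Fin n), J.card ≤ j₀ ∧
      ∑ u ∈ J.powerset, pr U m J u * (1 - pr U m J u) ≤ ε * 2 ^ J.card := by
  obtain ⟨C', hC'⟩ : ∃ C' : ℝ, C' = max C 0 := ⟨_, rfl⟩
  have hC0 : 0 ≤ C' := hC' ▸ le_max_right _ _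
  have hCC : C ≤ C' := hC' ▸ le_max_left _ _
  obtain ⟨j₀, hj⟩ := Pool.Agent.OFK.cube_junta (24 * C') (ε / 3) (by positivity)
  obtain ⟨M, hM⟩ : ∃ M : ℝ, M = 6 * C' + 2 ^ j₀ * 2 * j₀ := ⟨_, rfl⟩
  have hM0 : 0 ≤ M := by rw [hM]; positivity
  obtain ⟨N₁, hN₁⟩ := exists_nat_gt ((3 * M * (1 + (c : ℝ) ^ 2) / ε) ^ 2)
  refine ⟨j₀, N₁ + 3 * c + 2 * j₀ + 4, fun n m U hN h2m hnm hU hp => ?_⟩
  have hm1 : 1 ≤ m := by omega
  have hmn : m < n := by omega
  have hn1 : 1 ≤ n := by omega
  have hn3 : n ≤ 3 * m := by omega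
  have hjm : j₀ ≤ m := by omega
  have hcpos : (0 : ℝ) < n.choose m := by exact_mod_cast Nat.choose_pos hmn.le
  have hyp : Hyp U m C' := ⟨hm1, hmn, hU, hC0, hp.trans (mul_le_mul_of_nonneg_right hCC hcpos.le)⟩
  have hm0 : (0 : ℝ) < m := by exact_mod_cast hm1
  have hn0 : (0 : ℝ) < n := by exact_mod_cast hn1
  have hn3' : (n : ℝ) ≤ 3 * m := by exact_mod_cast hn3
  have hs : (0 : ℝ) < √n := Real.sqrt_pos.2 hn0
  have hsq : √(n : ℝ) * √n = n := Real.mul_self_sqrt (by positivity)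
  -- the error term
  obtain ⟨δ, hδ⟩ : ∃ δ : ℝ, δ = (1 + (c : ℝ) ^ 2) / √n := ⟨_, rfl⟩
  have hδ0 : 0 ≤ δ := by rw [hδ]; positivity
  have hδn : (1 + (c : ℝ) ^ 2) * √n = δ * n := by
    rw [hδ, ← hsq]
    field_simp
    rw [Real.sqrt_sq hs.le]
  have hMδ : M * δ ≤ ε / 3 := by
    have h1 : 3 * M * (1 + (c : ℝ) ^ 2) / ε ≤ √n := by
      refine Real.le_sqrt_of_sq_le ?_
      have h2 : (N₁ : ℝ) ≤ n := by
        have : N₁ ≤ n := by omega
        exact_mod_cast this
      linarith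
    rw [div_le_iff₀ hε] at h1
    rw [hδ, mul_div_assoc', div_le_div_iff₀ hs (by norm_num)]
    linarith
  have hmom := abs_moment (n := n) (m := m) (c := c) hn1 h2m hnm
  rw [hδn] at hmom
  have hp2 : (0 : ℝ) < 2 ^ n := by positivity
  -- the cube theorem
  obtain ⟨J, hJ, hJ2⟩ := hj n (lift U m)
    (fun i => (∑ x, |lift U m (insert i x) - lift U m (x.erase i)|) / 2 ^ n)
    (lift_mem U m hmn.le hU) (fun i => le_rfl) (hyp.total_edge.trans (by
      rw [div_le_iff₀ hm0]
      nlinarith))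
  refine ⟨J, hJ, ?_⟩
  have hJn : J.card ≤ n := by
    have := card_le_univ J
    rwa [Fintype.card_fin] at this
  obtain ⟨P, hP⟩ : ∃ P : ℝ, P = 2 ^ J.card := ⟨_, rfl⟩
  have hP0 : 0 < P := by rw [hP]; positivity
  have hPn : (2 : ℝ) ^ n = 2 ^ (n - J.card) * P := by
    rw [hP, ← pow_add, Nat.sub_add_cancel hJn]
  have hPj : P ≤ 2 ^ j₀ := by
    rw [hP]
    exact pow_le_pow_right₀ (by norm_num) hJ
  have hp2' : (0 : ℝ) < 2 ^ (n - J.card) := by positivity
  obtain ⟨F, hF⟩ : ∃ F : Finset (Fin n) → ℝ, ∀ u, F u =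
    ∑ x, (if x ∩ J = u then lift U m x else 0) := ⟨_, fun _ => rfl⟩
  obtain ⟨a, ha⟩ : ∃ a : Finset (Fin n) → ℝ, ∀ u, a u = F u / 2 ^ (n - J.card) :=
    ⟨_, fun _ => rfl⟩
  -- the sum over the fibres
  have hfib : ∑ x, lift U m x = ∑ u ∈ J.powerset, F u := by
    have h1 : ∀ x : Finset (Fin n), x ∈ (univ : Finset (Finset (Fin n))) → x ∩ J ∈ J.powerset :=
      fun x _ => mem_powerset.2 inter_subset_right
    rw [← sum_fiberwise_of_maps_to h1]
    refine sum_congr rfl fun u _ => ?_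
    rw [hF, sum_filter]
  have hvar := hyp.total_var
  have hvar2 : (∑ x, lift U m x * (1 - lift U m x)) / 2 ^ n ≤ 6 * C' * δ := by
    rw [div_le_iff₀ hp2]
    refine hvar.trans ((mul_le_mul_of_nonneg_left hmom hyp.S_nonneg).trans ?_)
    have h1 : 2 * C' / m * (δ * n * 2 ^ n) = (2 * C' * δ * 2 ^ n) * (n / m) := by
      field_simp
    rw [h1]
    have h2 : (n : ℝ) / m ≤ 3 := by
      rw [div_le_iff₀ hm0]
      exact hn3'
    calc (2 * C' * δ * 2 ^ n) * (n / m) ≤ (2 * C' * δ * 2 ^ n) * 3 :=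
          mul_le_mul_of_nonneg_left h2 (by positivity)
      _ = 6 * C' * δ * 2 ^ n := by ring
  rw [avg_sum] at hJ2
  have hA : (∑ u ∈ J.powerset, a u * (1 - a u)) / P ≤ ε / 3 + 6 * C' * δ := by
    have h1 : (∑ x, lift U m x) / 2 ^ n = (∑ u ∈ J.powerset, a u) / P := by
      rw [hfib, hPn, ← div_div, sum_div]
      congr 1
      exact sum_congr rfl fun u _ => (ha u).symm
    have h2 : (∑ u ∈ J.powerset, 2 ^ (n - J.card) *
        ((∑ x, (if x ∩ J = u then lift U m x else 0)) / 2 ^ (n - J.card)) ^ 2) / 2 ^ n =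
        (∑ u ∈ J.powerset, a u ^ 2) / P := by
      rw [hPn, ← div_div, sum_div]
      congr 1
      refine sum_congr rfl fun u _ => ?_
      rw [← hF, ← ha, mul_div_assoc, mul_div_cancel₀ _ hp2'.ne']
    rw [h2] at hJ2
    have h3 : (∑ x, lift U m x * (1 - lift U m x)) / 2 ^ n =
        (∑ x, lift U m x) / 2 ^ n - (∑ x, lift U m x ^ 2) / 2 ^ n := by
      rw [← sub_div, ← sum_sub_distrib]
      congr 1
      exact sum_congr rfl fun x _ => by ring
    have h4 : (∑ u ∈ J.powerset, a u * (1 - a u)) / P =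
        (∑ u ∈ J.powerset, a u) / P - (∑ u ∈ J.powerset, a u ^ 2) / P := by
      rw [← sub_div, ← sum_sub_distrib]
      congr 1
      exact sum_congr rfl fun x _ => by ring
    rw [h3, h1] at hvar2
    rw [h4]
    linarith
  -- the densities
  have hpa : ∀ u ∈ J.powerset, pr U m J u * (1 - pr U m J u) ≤ a u * (1 - a u) +
      2 ^ j₀ * 2 * j₀ * δ := by
    intro u hu
    have huJ := mem_powerset.1 hu
    have hum : u.card ≤ m := (card_le_card huJ).trans (hJ.trans hjm)
    obtain ⟨h0, h1, h2⟩ := pr_mem (m := m) hU huJ hum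
    have h3 := hyp.total_trace J u huJ
    have h4 := trace_density (n := n) m hm1 hmn J u huJ hum
    rw [← hF] at h3
    obtain ⟨W, hW⟩ : ∃ W : ℝ, W = ((n - J.card).choose (m - u.card) : ℝ) / n.choose m := ⟨_, rfl⟩
    rw [← hW] at h2 h4
    rw [← h2] at h3
    obtain ⟨p, hpp⟩ : ∃ p : ℝ, p = pr U m J u := ⟨_, rfl⟩
    rw [← hpp] at h0 h1 h3 ⊢
    have hJj : (J.card : ℝ) ≤ j₀ := by exact_mod_cast hJ
    have h5 : (J.card : ℝ) * ∑ x : Finset (Fin n), |(x.card : ℝ) - m| ≤ n * (j₀ * δ * 2 ^ n) := by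
      calc (J.card : ℝ) * ∑ x : Finset (Fin n), |(x.card : ℝ) - m|
          ≤ j₀ * (δ * n * 2 ^ n) := by
            refine mul_le_mul hJj hmom (sum_nonneg fun _ _ => abs_nonneg _) (by positivity)
        _ = n * (j₀ * δ * 2 ^ n) := by ring
    have h6 := le_of_mul_le_mul_left (h3.trans h5) hn0
    have h7 := le_of_mul_le_mul_left (h4.trans h5) hn0
    have h8 : |a u - p| ≤ 2 ^ j₀ * 2 * j₀ * δ := by
      have h9 : |F u - p * 2 ^ (n - J.card)| ≤ 2 * (j₀ * δ * 2 ^ n) := by
        have h10 : F u - p * 2 ^ (n - J.card) =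
            (F u - 2 ^ n * (p * W)) - p * (2 ^ (n - J.card) - 2 ^ n * W) := by ring
        rw [h10]
        refine (abs_sub _ _).trans ?_
        rw [abs_mul, abs_of_nonneg h0]
        have h11 : p * |(2 : ℝ) ^ (n - J.card) - 2 ^ n * W| ≤ 1 * (j₀ * δ * 2 ^ n) :=
          mul_le_mul h1 h7 (abs_nonneg _) (by norm_num)
        linarith
      have h10 : a u - p = (F u - p * 2 ^ (n - J.card)) / 2 ^ (n - J.card) := by
        rw [ha]
        field_simp
      rw [h10, abs_div, abs_of_pos hp2', div_le_iff₀ hp2']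
      refine h9.trans ?_
      calc 2 * (j₀ * δ * 2 ^ n) = P * (2 * j₀ * δ * 2 ^ (n - J.card)) := by
            rw [hPn]
            ring
        _ ≤ 2 ^ j₀ * (2 * j₀ * δ * 2 ^ (n - J.card)) :=
            mul_le_mul_of_nonneg_right hPj (by positivity)
        _ = 2 ^ j₀ * 2 * j₀ * δ * 2 ^ (n - J.card) := by ring
    have h0a : 0 ≤ a u := by
      rw [ha, hF]
      refine div_nonneg (sum_nonneg fun x _ => ?_) hp2'.le
      split_ifs
      · exact (lift_mem U m hmn.le hU x).1
      · exact le_rfl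
    have h1a : a u ≤ 1 := by
      rw [ha, hF, div_le_one hp2']
      calc ∑ x, (if x ∩ J = u then lift U m x else 0)
          ≤ ∑ x : Finset (Fin n), (if x ∩ J = u then (1 : ℝ) else 0) := by
            refine sum_le_sum fun x _ => ?_
            split_ifs
            · exact (lift_mem U m hmn.le hU x).2
            · exact le_rfl
        _ = 2 ^ (n - J.card) := by
            rw [← sum_filter, sum_const, card_trace_cube J u huJ, nsmul_eq_mul, mul_one]
            push_cast
            rfl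
    have h12 : p * (1 - p) - a u * (1 - a u) = (a u - p) * (a u + p - 1) := by ring
    have h13 : (a u - p) * (a u + p - 1) ≤ |a u - p| := by
      refine (le_abs_self _).trans ?_
      rw [abs_mul]
      refine mul_le_of_le_one_right (abs_nonneg _) ?_
      rw [abs_le]
      constructor <;> linarith
    linarith
  calc ∑ u ∈ J.powerset, pr U m J u * (1 - pr U m J u)
      ≤ ∑ u ∈ J.powerset, (a u * (1 - a u) + 2 ^ j₀ * 2 * j₀ * δ) := sum_le_sum hpa
    _ = ∑ u ∈ J.powerset, a u * (1 - a u) + P * (2 ^ j₀ * 2 * j₀ * δ) := by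
        rw [sum_add_distrib, sum_const, card_powerset, nsmul_eq_mul, hP]
        push_cast
        rfl
    _ ≤ (ε / 3 + 6 * C' * δ) * P + P * (2 ^ j₀ * 2 * j₀ * δ) := by
        rw [div_le_iff₀ hP0] at hA
        linarith
    _ = (ε / 3 + M * δ) * P := by rw [hM]; ring
    _ ≤ ε * P := by
        refine mul_le_mul_of_nonneg_right ?_ hP0.le
        linarith
    _ = ε * 2 ^ J.card := by rw [hP]

end Pool.Agent.OFK70
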