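import Pool.Agent.OFK70.Level

/-!
# OFK70: the mean over a trace changes by at most `|J| / n` per level
-/

namespace Pool.Agent.OFK70

open Finset

variable {n : ℕ}

theorem card_mem_level (l : ℕ) (i : Fin n) :
    (n : ℝ) * ((powersetCard (l + 1) (univ : Finset (Fin n))).filter fun x => i ∈ x).card =
      ((l : ℝ) + 1) * n.choose (l + 1) := by
  have h1 : ((powersetCard (l + 1) (univ : Finset (Fin n))).filter fun x => i ∈ x) =
      (powersetCard l (univ.erase i)).image (insert i) := by
    ext x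
    simp only [mem_filter, mem_powersetCard, mem_image, subset_univ, true_and]
    constructor
    · rintro ⟨hx, hi⟩
      refine ⟨x.erase i, ⟨erase_subset_erase i (subset_univ x), ?_⟩, insert_erase hi⟩
      rw [card_erase_of_mem hi, hx]
      rfl
    · rintro ⟨y, ⟨hy, hyc⟩, rfl⟩
      have hi : i ∉ y := fun h => notMem_erase i _ (hy h)
      exact ⟨by rw [card_insert_of_notMem hi, hyc], mem_insert_self i y⟩
  have hinj : Set.InjOn (insert i) (powersetCard l (univ.erase i) : Set (Finset (Fin n))) := by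
    intro y hy z hz h
    have hy' : i ∉ y := fun h => notMem_erase i _ ((mem_powersetCard.1 (mem_coe.1 hy)).1 h)
    have hz' : i ∉ z := fun h => notMem_erase i _ ((mem_powersetCard.1 (mem_coe.1 hz)).1 h)
    rw [← erase_insert hy', ← erase_insert hz']
    exact congrArg (fun s => s.erase i) h
  rw [h1, card_image_of_injOn hinj, card_powersetCard, card_erase_of_mem (mem_univ i), card_univ,
    Fintype.card_fin]
  have hn : 0 < n := i.pos
  obtain ⟨k, rfl⟩ : ∃ k, n = k + 1 := ⟨n - 1, by omega⟩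
  have h2 := Nat.add_one_mul_choose_eq k l
  rw [Nat.add_sub_cancel]
  have h3 : ((k + 1 : ℕ) : ℝ) * (k.choose l : ℝ) =
      ((k + 1).choose (l + 1) : ℝ) * ((l : ℝ) + 1) := by
    exact_mod_cast h2
  rw [h3]
  ring

theorem trace_step (g : Finset (Fin n) → ℝ) (h01 : ∀ x, 0 ≤ g x ∧ g x ≤ 1) (m l : ℕ)
    (hg : Mean g m) (hm : m ≤ l) (J u : Finset (Fin n)) :
    (n : ℝ) * |((l : ℝ) + 1) * ∑ x ∈ powersetCard (l + 1) (univ : Finset (Fin n)),
        (if x ∩ J = u then g x else 0) -
      (n - l : ℕ) * ∑ y ∈ powersetCard l (univ : Finset (Fin n)), (if y ∩ J = u then g y else 0)| ≤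
      J.card * (((l : ℝ) + 1) * n.choose (l + 1)) := by
  have h1 : ((l : ℝ) + 1) * ∑ x ∈ powersetCard (l + 1) (univ : Finset (Fin n)),
      (if x ∩ J = u then g x else 0) =
      ∑ x ∈ powersetCard (l + 1) (univ : Finset (Fin n)), ∑ i ∈ x,
        (if x ∩ J = u then g (x.erase i) else 0) := by
    rw [mul_sum]
    refine sum_congr rfl fun x hx => ?_
    have hxc : x.card = l + 1 := (mem_powersetCard.1 hx).2
    split_ifs
    · have h2 := hg x (by omega)
      rw [hxc] at h2
      push_cast at h2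
      exact h2
    · simp
  have h2 : ((n - l : ℕ) : ℝ) * ∑ y ∈ powersetCard l (univ : Finset (Fin n)),
      (if y ∩ J = u then g y else 0) =
      ∑ x ∈ powersetCard (l + 1) (univ : Finset (Fin n)), ∑ i ∈ x,
        (if (x.erase i) ∩ J = u then g (x.erase i) else 0) := by
    rw [sum_erase l (fun y _ => if y ∩ J = u then g y else 0), mul_sum]
    refine sum_congr rfl fun y hy => ?_
    rw [sum_const, card_compl, Fintype.card_fin, (mem_powersetCard.1 hy).2, nsmul_eq_mul]
  rw [h1, h2, ← sum_sub_distrib]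
  have h3 : |∑ x ∈ powersetCard (l + 1) (univ : Finset (Fin n)),
      ((∑ i ∈ x, if x ∩ J = u then g (x.erase i) else 0) -
        ∑ i ∈ x, if (x.erase i) ∩ J = u then g (x.erase i) else 0)| ≤
      ∑ x ∈ powersetCard (l + 1) (univ : Finset (Fin n)),
        ∑ i ∈ x, if i ∈ J then (1 : ℝ) else 0 := by
    refine (abs_sum_le_sum_abs _ _).trans (sum_le_sum fun x _ => ?_)
    rw [← sum_sub_distrib]
    refine (abs_sum_le_sum_abs _ _).trans (sum_le_sum fun i _ => ?_)
    by_cases hi : i ∈ J
    · rw [if_pos hi, abs_le]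
      have h4 := h01 (x.erase i)
      constructor <;> split_ifs <;> linarith
    · rw [if_neg hi, erase_inter, erase_eq_of_notMem (fun h => hi (mem_inter.1 h).2), sub_self,
        abs_zero]
  have h4 : (n : ℝ) * ∑ x ∈ powersetCard (l + 1) (univ : Finset (Fin n)),
      ∑ i ∈ x, (if i ∈ J then (1 : ℝ) else 0) = J.card * (((l : ℝ) + 1) * n.choose (l + 1)) := by
    have h5 : ∑ x ∈ powersetCard (l + 1) (univ : Finset (Fin n)),
        ∑ i ∈ x, (if i ∈ J then (1 : ℝ) else 0) =
        ∑ i ∈ J, (((powersetCard (l + 1) (univ : Finset (Fin n))).filter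
          fun x => i ∈ x).card : ℝ) := by
      have h6 : ∀ x ∈ powersetCard (l + 1) (univ : Finset (Fin n)),
          ∑ i ∈ x, (if i ∈ J then (1 : ℝ) else 0) = ∑ i ∈ J, (if i ∈ x then (1 : ℝ) else 0) := by
        intro x _
        rw [← sum_filter, ← sum_filter, filter_mem_eq_inter, filter_mem_eq_inter, inter_comm]
      rw [sum_congr rfl h6, sum_comm]
      refine sum_congr rfl fun i _ => ?_
      rw [← sum_filter, sum_const, nsmul_eq_mul, mul_one]
    rw [h5, mul_sum, sum_congr rfl fun i _ => card_mem_level l i, sum_const, nsmul_eq_mul]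
  rw [← h4]
  exact mul_le_mul_of_nonneg_left h3 (by positivity)

/-- the mean over a trace on the level `l` -/
theorem trace_le (g : Finset (Fin n) → ℝ) (h01 : ∀ x, 0 ≤ g x ∧ g x ≤ 1) (m : ℕ)
    (hg : Mean g m) (hn : 0 < n) (hmn : m ≤ n) (J u : Finset (Fin n)) (q : ℝ)
    (hq : ∑ y ∈ powersetCard m (univ : Finset (Fin n)), (if y ∩ J = u then g y else 0) =
      n.choose m * q) (l : ℕ) (hl : m ≤ l) :
    (n : ℝ) * |∑ x ∈ powersetCard l (univ : Finset (Fin n)), (if x ∩ J = u then g x else 0) -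
      n.choose l * q| ≤ J.card * ((l : ℝ) - m) * n.choose l := by
  induction l, hl using Nat.le_induction with
  | base => rw [hq]; simp
  | succ l hl ih =>
    have h1 := trace_step g h01 m l hg hl J u
    obtain ⟨A, hA⟩ : ∃ A : ℝ, A = ∑ x ∈ powersetCard (l + 1) (univ : Finset (Fin n)),
      (if x ∩ J = u then g x else 0) := ⟨_, rfl⟩
    obtain ⟨B, hB⟩ : ∃ B : ℝ, B = ∑ x ∈ powersetCard l (univ : Finset (Fin n)),
      (if x ∩ J = u then g x else 0) := ⟨_, rfl⟩
    rw [← hA, ← hB] at h1
    rw [← hB] at ih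
    rw [← hA]
    have h4 : (n.choose (l + 1) : ℝ) * ((l : ℝ) + 1) = n.choose l * (n - l : ℕ) := by
      have h5 := Nat.choose_succ_right_eq n l
      exact_mod_cast h5
    have h5 : ((l : ℝ) + 1) * |A - n.choose (l + 1) * q| ≤
        |((l : ℝ) + 1) * A - (n - l : ℕ) * B| + (n - l : ℕ) * |B - n.choose l * q| := by
      rw [← abs_of_nonneg (show (0 : ℝ) ≤ (n - l : ℕ) by positivity), ← abs_mul,
        ← abs_of_pos (show (0 : ℝ) < (l : ℝ) + 1 by positivity), ← abs_mul,
        abs_of_pos (show (0 : ℝ) < (l : ℝ) + 1 by positivity),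
        abs_of_nonneg (show (0 : ℝ) ≤ ((n - l : ℕ) : ℝ) by positivity)]
      refine le_trans (le_of_eq ?_) (abs_add_le _ _)
      congr 1
      have h6 : ((l : ℝ) + 1) * (n.choose (l + 1) * q) = (n - l : ℕ) * (n.choose l * q) := by
        calc ((l : ℝ) + 1) * (n.choose (l + 1) * q) = (n.choose (l + 1) * ((l : ℝ) + 1)) * q := by
              ring
          _ = (n.choose l * (n - l : ℕ)) * q := by rw [h4]
          _ = _ := by ring
      rw [mul_sub, mul_sub, h6]
      ring
    have h8 : (0 : ℝ) < (l : ℝ) + 1 := by positivity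
    refine le_of_mul_le_mul_left ?_ h8
    calc ((l : ℝ) + 1) * ((n : ℝ) * |A - n.choose (l + 1) * q|)
        = n * (((l : ℝ) + 1) * |A - n.choose (l + 1) * q|) := by ring
      _ ≤ n * (|((l : ℝ) + 1) * A - (n - l : ℕ) * B| + (n - l : ℕ) * |B - n.choose l * q|) :=
          mul_le_mul_of_nonneg_left h5 (by positivity)
      _ = n * |((l : ℝ) + 1) * A - (n - l : ℕ) * B| +
            (n - l : ℕ) * (n * |B - n.choose l * q|) := by ring
      _ ≤ J.card * (((l : ℝ) + 1) * n.choose (l + 1)) +
            (n - l : ℕ) * (J.card * ((l : ℝ) - m) * n.choose l) :=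
          add_le_add h1 (mul_le_mul_of_nonneg_left ih (by positivity))
      _ = J.card * (((l : ℝ) + 1) * n.choose (l + 1)) +
            J.card * ((l : ℝ) - m) * (n.choose l * (n - l : ℕ)) := by ring
      _ = J.card * (((l : ℝ) + 1) * n.choose (l + 1)) +
            J.card * ((l : ℝ) - m) * (n.choose (l + 1) * ((l : ℝ) + 1)) := by rw [h4]
      _ = ((l : ℝ) + 1) * (J.card * (((l + 1 : ℕ) : ℝ) - m) * n.choose (l + 1)) := by
          push_cast
          ring

end Pool.Agent.OFK70
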