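import Pool.Agent.OFK70.Trace

/-!
# OFK70: the share of the members of a family inside a set
-/

namespace Pool.Agent.OFK70

open Finset
open scoped FinsetFamily

variable {n : ℕ}

/-- the share of `U` among the `m`-subsets of `x` -/
noncomputable def up (U : Finset (Finset (Fin n))) (m : ℕ) (x : Finset (Fin n)) : ℝ :=
  ((U.filter fun A => A ⊆ x).card : ℝ) / (x.card.choose m : ℝ)

theorem up_mem (U : Finset (Finset (Fin n))) (m : ℕ) (hU : ∀ A ∈ U, A.card = m)
    (x : Finset (Fin n)) : 0 ≤ up U m x ∧ up U m x ≤ 1 := by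
  refine ⟨by unfold up; positivity, ?_⟩
  unfold up
  refine div_le_one_of_le₀ ?_ (by positivity)
  have h1 : (U.filter fun A => A ⊆ x) ⊆ powersetCard m x := by
    intro A hA
    rw [mem_filter] at hA
    exact mem_powersetCard.2 ⟨hA.2, hU A hA.1⟩
  have h2 := card_le_card h1
  rw [card_powersetCard] at h2
  exact_mod_cast h2

theorem up_base (U : Finset (Finset (Fin n))) (m : ℕ) (hU : ∀ A ∈ U, A.card = m)
    (x : Finset (Fin n)) (hx : x.card = m) : up U m x = if x ∈ U then 1 else 0 := by
  unfold up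
  rw [hx, Nat.choose_self, Nat.cast_one, div_one]
  have h1 : (U.filter fun A => A ⊆ x) = if x ∈ U then {x} else ∅ := by
    split_ifs with h
    · ext A
      rw [mem_filter, mem_singleton]
      constructor
      · rintro ⟨hA, hAx⟩
        exact eq_of_subset_of_card_le hAx (by rw [hx, hU A hA])
      · rintro rfl
        exact ⟨h, Subset.refl _⟩
    · rw [filter_eq_empty_iff]
      intro A hA hAx
      have := eq_of_subset_of_card_le hAx (by rw [hx, hU A hA])
      exact h (this ▸ hA)
  rw [h1]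
  split_ifs <;> simp

theorem up_mean (U : Finset (Finset (Fin n))) (m : ℕ) (hU : ∀ A ∈ U, A.card = m) :
    Mean (up U m) m := by
  intro x hx
  obtain ⟨a, ha⟩ : ∃ a, x.card = a + 1 := ⟨x.card - 1, by omega⟩
  have h1 : ∀ i ∈ x, up U m (x.erase i) =
      ((U.filter fun A => A ⊆ x.erase i).card : ℝ) / (a.choose m : ℝ) := by
    intro i hi
    unfold up
    rw [card_erase_of_mem hi, ha, Nat.add_sub_cancel]
  rw [sum_congr rfl h1, ← sum_div]
  have h2 : ∑ i ∈ x, ((U.filter fun A => A ⊆ x.erase i).card : ℝ) =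
      ((U.filter fun A => A ⊆ x).card : ℝ) * ((a + 1 - m : ℕ) : ℝ) := by
    have h3 : ∀ i ∈ x, ((U.filter fun A => A ⊆ x.erase i).card : ℝ) =
        ∑ A ∈ U.filter (fun A => A ⊆ x), if i ∉ A then (1 : ℝ) else 0 := by
      intro i _
      rw [← sum_filter, sum_const, nsmul_eq_mul, mul_one, filter_filter]
      congr 2
      ext A
      rw [mem_filter, mem_filter, subset_erase]
    rw [sum_congr rfl h3, sum_comm]
    rw [show ((U.filter fun A => A ⊆ x).card : ℝ) * ((a + 1 - m : ℕ) : ℝ) =
      ∑ A ∈ U.filter (fun A => A ⊆ x), ((a + 1 - m : ℕ) : ℝ) by rw [sum_const, nsmul_eq_mul]]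
    refine sum_congr rfl fun A hA => ?_
    rw [mem_filter] at hA
    rw [← sum_filter, sum_const, nsmul_eq_mul, mul_one]
    congr 1
    rw [filter_notMem_eq_sdiff, card_sdiff_of_subset hA.2, ha, hU A hA.1]
  rw [h2]
  unfold up
  rw [ha]
  have h3 := Nat.choose_mul_succ_eq a m
  have h4 : (a.choose m : ℝ) * ((a : ℝ) + 1) = ((a + 1).choose m : ℝ) * ((a + 1 - m : ℕ) : ℝ) := by
    exact_mod_cast h3
  have h5 : (0 : ℝ) < (a.choose m : ℝ) := by
    exact_mod_cast Nat.choose_pos (by omega)
  have h6 : (0 : ℝ) < ((a + 1).choose m : ℝ) := by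
    exact_mod_cast Nat.choose_pos (by omega)
  rw [mul_div_assoc', div_eq_div_iff h6.ne' h5.ne']
  push_cast
  calc ((a : ℝ) + 1) * ((U.filter fun A => A ⊆ x).card : ℝ) * (a.choose m : ℝ)
      = ((U.filter fun A => A ⊆ x).card : ℝ) * ((a.choose m : ℝ) * ((a : ℝ) + 1)) := by ring
    _ = ((U.filter fun A => A ⊆ x).card : ℝ) *
        (((a + 1).choose m : ℝ) * ((a + 1 - m : ℕ) : ℝ)) := by rw [h4]
    _ = _ := by ring

/-- the number of pairs (a set of the shadow, a point which leads out of the family) -/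
def pairs (U : Finset (Finset (Fin n))) : ℕ :=
  ∑ T ∈ ∂ U, (univ.filter fun z => z ∉ T ∧ insert z T ∉ U).card

/-- the swap sum of the indicator -/
theorem Bs_ind (U : Finset (Finset (Fin n))) (t : ℕ) (hU : ∀ A ∈ U, A.card = t + 1)
    (g : Finset (Fin n) → ℝ) (hg : ∀ x : Finset (Fin n), x.card = t + 1 →
      g x = if x ∈ U then 1 else 0) :
    Bs g t ≤ 2 * ((n - (t + 1) : ℕ) : ℝ) * pairs U := by
  unfold Bs
  have h1 : ∀ T ∈ powersetCard t (univ : Finset (Fin n)), ∑ a ∈ Tᶜ, ∑ b ∈ Tᶜ,
      |g (insert a T) - g (insert b T)| ≤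
      if T ∈ ∂ U then 2 * ((n - (t + 1) : ℕ) : ℝ) *
        ((univ.filter fun z => z ∉ T ∧ insert z T ∉ U).card : ℝ) else 0 := by
    intro T hT
    have hTc : T.card = t := (mem_powersetCard.1 hT).2
    have hg' : ∀ a ∈ Tᶜ, g (insert a T) = if insert a T ∈ U then 1 else 0 := by
      intro a ha
      refine hg _ ?_
      rw [card_insert_of_notMem (mem_compl.1 ha), hTc]
    split_ifs with h
    · have h2 : ∀ a ∈ Tᶜ, ∀ b ∈ Tᶜ, |g (insert a T) - g (insert b T)| =
          (if insert a T ∈ U ∧ insert b T ∉ U then (1 : ℝ) else 0) +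
            (if insert b T ∈ U ∧ insert a T ∉ U then (1 : ℝ) else 0) := by
        intro a ha b hb
        rw [hg' a ha, hg' b hb]
        by_cases h3 : insert a T ∈ U <;> by_cases h4 : insert b T ∈ U <;> simp [h3, h4]
      rw [sum_congr rfl fun a ha => sum_congr rfl fun b hb => h2 a ha b hb]
      rw [sum_congr rfl fun a _ => sum_add_distrib, sum_add_distrib]
      have h5 : ∑ b ∈ Tᶜ, ∑ a ∈ Tᶜ, (if insert a T ∈ U ∧ insert b T ∉ U then (1 : ℝ) else 0) ≤
          ((n - (t + 1) : ℕ) : ℝ) *
            ((univ.filter fun z => z ∉ T ∧ insert z T ∉ U).card : ℝ) := by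
        have h6 : ((n - (t + 1) : ℕ) : ℝ) *
            ((univ.filter fun z => z ∉ T ∧ insert z T ∉ U).card : ℝ) =
            ∑ b ∈ Tᶜ, if insert b T ∉ U then ((n - (t + 1) : ℕ) : ℝ) else 0 := by
          rw [← sum_filter, sum_const, nsmul_eq_mul, mul_comm]
          congr 3
          ext z
          simp
        rw [h6]
        refine sum_le_sum fun b hb => ?_
        by_cases h7 : insert b T ∈ U
        · rw [if_neg (not_not.2 h7)]
          refine le_of_eq (sum_eq_zero fun a _ => ?_)
          rw [if_neg (fun h8 => h8.2 h7)]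
        · rw [if_pos h7]
          calc ∑ a ∈ Tᶜ, (if insert a T ∈ U ∧ insert b T ∉ U then (1 : ℝ) else 0)
              = ((Tᶜ.filter fun a => insert a T ∈ U ∧ insert b T ∉ U).card : ℝ) := by
                rw [← sum_filter, sum_const, nsmul_eq_mul, mul_one]
            _ ≤ ((Tᶜ.erase b).card : ℝ) := by
                have h8 : (Tᶜ.filter fun a => insert a T ∈ U ∧ insert b T ∉ U) ⊆ Tᶜ.erase b := by
                  intro a ha
                  rw [mem_filter] at ha
                  refine mem_erase.2 ⟨?_, ha.1⟩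
                  rintro rfl
                  exact h7 ha.2.1
                exact_mod_cast card_le_card h8
            _ = ((n - (t + 1) : ℕ) : ℝ) := by
                rw [card_erase_of_mem hb, card_compl, Fintype.card_fin, hTc, Nat.sub_sub]
      have h6 : ∑ a ∈ Tᶜ, ∑ b ∈ Tᶜ, (if insert a T ∈ U ∧ insert b T ∉ U then (1 : ℝ) else 0) ≤
          ((n - (t + 1) : ℕ) : ℝ) *
            ((univ.filter fun z => z ∉ T ∧ insert z T ∉ U).card : ℝ) := by
        rw [sum_comm]
        exact h5
      have h7 := h5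
      linarith
    · refine le_of_eq (sum_eq_zero fun a ha => sum_eq_zero fun b hb => ?_)
      have h2 : ∀ c ∈ Tᶜ, insert c T ∉ U := by
        intro c hc h3
        apply h
        rw [mem_shadow_iff_insert_mem]
        exact ⟨c, mem_compl.1 hc, h3⟩
      rw [hg' a ha, hg' b hb, if_neg (h2 a ha), if_neg (h2 b hb)]
      simp
  refine (sum_le_sum h1).trans ?_
  rw [← sum_filter]
  unfold pairs
  push_cast
  rw [mul_sum]
  refine le_of_eq ?_
  refine sum_congr ?_ fun _ _ => rfl
  ext T
  rw [mem_filter, mem_powersetCard]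
  constructor
  · exact fun h => h.2
  · intro h
    refine ⟨⟨subset_univ _, ?_⟩, h⟩
    rw [mem_shadow_iff_insert_mem] at h
    obtain ⟨a, ha, hT⟩ := h
    have := hU _ hT
    rw [card_insert_of_notMem ha] at this
    omega

end Pool.Agent.OFK70
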